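import Pool.Agent.H311.KAP.Defs

/-!
# K4: averaging over N affine functionals
-/

set_option autoImplicit false

open Finset

namespace Pool.Agent.H311.KAP

/-- counting the tuples with a property of the images -/
theorem avg_count {Φ α : Type} [Fintype Φ] [Fintype α] [DecidableEq Φ] [DecidableEq α] {N a : ℕ}
    (F : Φ → α) (hF : ∀ c : α, (univ.filter (fun f : Φ => F f = c)).card = a)
    (P : (Fin N → α) → Prop) [DecidablePred P]
    [DecidablePred fun ω : Fin N → Φ => P (fun i => F (ω i))] :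
    (univ.filter (fun ω : Fin N → Φ => P (fun i => F (ω i)))).card =
      (univ.filter (fun c : Fin N → α => P c)).card * a ^ N := by
  have hmaps : ∀ ω ∈ univ.filter (fun ω : Fin N → Φ => P (fun i => F (ω i))),
      (fun i => F (ω i)) ∈ univ.filter (fun c : Fin N → α => P c) := by
    intro ω hω
    rw [mem_filter] at hω ⊢
    exact ⟨mem_univ _, hω.2⟩
  rw [Finset.card_eq_sum_card_fiberwise hmaps]
  rw [Finset.sum_congr rfl (g := fun _ => a ^ N), Finset.sum_const, smul_eq_mul]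
  intro c hc
  rw [mem_filter] at hc
  have h1 : (univ.filter (fun ω : Fin N → Φ => P (fun i => F (ω i)))).filter
      (fun ω => (fun i => F (ω i)) = c) =
      Fintype.piFinset (fun i => univ.filter (fun f : Φ => F f = c i)) := by
    ext ω
    rw [mem_filter, mem_filter, Fintype.mem_piFinset]
    constructor
    · rintro ⟨_, h⟩ i
      rw [mem_filter]
      exact ⟨mem_univ _, congrFun h i⟩
    · intro h
      have h2 : (fun i => F (ω i)) = c := by
        funext i
        exact (mem_filter.1 (h i)).2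
      refine ⟨⟨mem_univ _, ?_⟩, h2⟩
      rw [h2]
      exact hc.2
  rw [h1, Fintype.card_piFinset]
  rw [Finset.prod_congr rfl (g := fun _ => a) (fun i _ => hF (c i))]
  simp

/-- the random set -/
noncomputable def avgD (p m N Z : ℕ) [NeZero p] (ω : Fin N → (Fin m → ZMod p) × ZMod p) :
    Finset (Fin m → ZMod p) :=
  univ.filter (fun x => nz (fun i => ∑ l, (ω i).1 l * x l + (ω i).2) ≤ Z)

theorem avg_sum1 (h1 : S_fib1) (p m N Z : ℕ) [Fact p.Prime] :
    ∑ ω : Fin N → (Fin m → ZMod p) × ZMod p, (avgD p m N Z ω).card =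
      p ^ m * (V p N Z * (p ^ m) ^ N) := by
  classical
  have hx : ∀ x : Fin m → ZMod p, (univ.filter (fun ω : Fin N → (Fin m → ZMod p) × ZMod p =>
      nz (fun i => ∑ l, (ω i).1 l * x l + (ω i).2) ≤ Z)).card = V p N Z * (p ^ m) ^ N := by
    intro x
    exact avg_count (fun f : (Fin m → ZMod p) × ZMod p => ∑ l, f.1 l * x l + f.2)
      (fun c => h1 p m x c) (fun c : Fin N → ZMod p => nz c ≤ Z)
  calc ∑ ω : Fin N → (Fin m → ZMod p) × ZMod p, (avgD p m N Z ω).card
      = ∑ ω : Fin N → (Fin m → ZMod p) × ZMod p, ∑ x : Fin m → ZMod p,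
          if nz (fun i => ∑ l, (ω i).1 l * x l + (ω i).2) ≤ Z then 1 else 0 := by
        refine Finset.sum_congr rfl fun ω _ => ?_
        unfold avgD
        rw [Finset.card_filter]
    _ = ∑ x : Fin m → ZMod p, ∑ ω : Fin N → (Fin m → ZMod p) × ZMod p,
          if nz (fun i => ∑ l, (ω i).1 l * x l + (ω i).2) ≤ Z then 1 else 0 := Finset.sum_comm
    _ = ∑ _x : Fin m → ZMod p, V p N Z * (p ^ m) ^ N := by
        refine Finset.sum_congr rfl fun x _ => ?_
        rw [← Finset.card_filter]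
        exact hx x
    _ = p ^ m * (V p N Z * (p ^ m) ^ N) := by
        rw [Finset.sum_const, smul_eq_mul, Finset.card_univ]
        simp [ZMod.card]

theorem avg_pair (h2 : S_fib2) (p m N Z k : ℕ) [Fact p.Prime] (x d : Fin m → ZMod p)
    (hd : d ≠ 0) :
    (univ.filter (fun ω : Fin N → (Fin m → ZMod p) × ZMod p =>
      ∀ j : ℕ, j < k → x + (j : ZMod p) • d ∈ avgD p m N Z ω)).card =
      B p N Z k * (p ^ m / p) ^ N := by
  classical
  have hp : 0 < p := (Fact.out : p.Prime).pos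
  have h3 := avg_count (N := N) (a := p ^ m / p)
    (fun f : (Fin m → ZMod p) × ZMod p => (∑ l, f.1 l * x l + f.2, ∑ l, f.1 l * d l)) (by
      rintro ⟨c, e⟩
      have h4 := h2 p m x d c e hd
      have h5 : (univ.filter (fun f : (Fin m → ZMod p) × ZMod p =>
          ((∑ l, f.1 l * x l + f.2, ∑ l, f.1 l * d l) : ZMod p × ZMod p) = (c, e))) =
          univ.filter (fun f : (Fin m → ZMod p) × ZMod p =>
            ∑ i, f.1 i * x i + f.2 = c ∧ ∑ i, f.1 i * d i = e) := by
        ext f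
        simp only [mem_filter, mem_univ, true_and, Prod.mk.injEq]
      rw [h5, ← h4, Nat.mul_div_cancel _ hp])
    (fun ce : Fin N → ZMod p × ZMod p => ∀ j : ℕ, j < k →
      nz ((fun i => (ce i).1) + (j : ZMod p) • (fun i => (ce i).2)) ≤ Z)
  have h4 : (univ.filter (fun ce : Fin N → ZMod p × ZMod p => ∀ j : ℕ, j < k →
      nz ((fun i => (ce i).1) + (j : ZMod p) • (fun i => (ce i).2)) ≤ Z)).card = B p N Z k := by
    unfold B
    refine Finset.card_bij (fun ce _ => (fun i => (ce i).1, fun i => (ce i).2)) ?_ ?_ ?_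
    · intro ce hce
      rw [mem_filter] at hce ⊢
      exact ⟨mem_univ _, hce.2⟩
    · intro ce _ ce' _ h
      simp only [Prod.mk.injEq] at h
      funext i
      exact Prod.ext (congrFun h.1 i) (congrFun h.2 i)
    · rintro ⟨c, e⟩ hce
      rw [mem_filter] at hce
      exact ⟨fun i => (c i, e i), by rw [mem_filter]; exact ⟨mem_univ _, hce.2⟩, rfl⟩
  rw [h4] at h3
  rw [← h3]
  congr 1
  ext ω
  rw [mem_filter, mem_filter]
  refine and_congr_right fun _ => forall_congr' fun j => imp_congr_right fun _ => ?_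
  unfold avgD
  rw [mem_filter]
  have h5 : (fun i => ∑ l, (ω i).1 l * (x + (j : ZMod p) • d) l + (ω i).2) =
      ((fun i => ∑ l, (ω i).1 l * x l + (ω i).2) +
        (j : ZMod p) • (fun i => ∑ l, (ω i).1 l * d l)) := by
    funext i
    simp only [Pi.add_apply, Pi.smul_apply, smul_eq_mul, Finset.mul_sum, mul_add,
      Finset.sum_add_distrib]
    have h6 : ∑ l, (ω i).1 l * ((j : ZMod p) * d l) = ∑ l, (j : ZMod p) * ((ω i).1 l * d l) :=
      Finset.sum_congr rfl fun l _ => by ring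
    rw [h6]
    ring
  rw [h5]
  exact and_iff_right (mem_univ _)

theorem avg_sum2 (h2 : S_fib2) (p m N Z k : ℕ) [Fact p.Prime] :
    ∑ ω : Fin N → (Fin m → ZMod p) × ZMod p, bad k (avgD p m N Z ω) ≤
      (p ^ m * p ^ m) * (B p N Z k * (p ^ m / p) ^ N) := by
  classical
  calc ∑ ω : Fin N → (Fin m → ZMod p) × ZMod p, bad k (avgD p m N Z ω)
      = ∑ ω : Fin N → (Fin m → ZMod p) × ZMod p,
          ∑ xd : (Fin m → ZMod p) × (Fin m → ZMod p),
          if xd.2 ≠ 0 ∧ ∀ j : ℕ, j < k → xd.1 + (j : ZMod p) • xd.2 ∈ avgD p m N Z ω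
            then 1 else 0 := by
        refine Finset.sum_congr rfl fun ω _ => ?_
        unfold bad
        rw [Finset.card_filter]
    _ = ∑ xd : (Fin m → ZMod p) × (Fin m → ZMod p),
          ∑ ω : Fin N → (Fin m → ZMod p) × ZMod p,
          if xd.2 ≠ 0 ∧ ∀ j : ℕ, j < k → xd.1 + (j : ZMod p) • xd.2 ∈ avgD p m N Z ω
            then 1 else 0 := Finset.sum_comm
    _ ≤ ∑ _xd : (Fin m → ZMod p) × (Fin m → ZMod p), B p N Z k * (p ^ m / p) ^ N := by
        refine Finset.sum_le_sum fun xd _ => ?_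
        rw [← Finset.card_filter]
        by_cases hd : xd.2 = 0
        · have h3 : (univ.filter (fun ω : Fin N → (Fin m → ZMod p) × ZMod p =>
              xd.2 ≠ 0 ∧ ∀ j : ℕ, j < k → xd.1 + (j : ZMod p) • xd.2 ∈ avgD p m N Z ω)) = ∅ := by
            rw [Finset.filter_eq_empty_iff]
            intro ω _ h
            exact h.1 hd
          rw [h3, Finset.card_empty]
          exact Nat.zero_le _
        · rw [← avg_pair h2 p m N Z k xd.1 xd.2 hd]
          refine Finset.card_le_card ?_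
          intro ω hω
          rw [mem_filter] at hω ⊢
          exact ⟨mem_univ _, hω.2.2⟩
    _ = (p ^ m * p ^ m) * (B p N Z k * (p ^ m / p) ^ N) := by
        rw [Finset.sum_const, smul_eq_mul, Finset.card_univ]
        simp [ZMod.card]

theorem avg (h1 : S_fib1) (h2 : S_fib2) : S_avg := by
  classical
  intro p m N Z k _
  have hp : 0 < p := (Fact.out : p.Prime).pos
  have hpR : (0 : ℝ) < p := by exact_mod_cast hp
  have e1 := avg_sum1 h1 p m N Z
  have e2 := avg_sum2 h2 p m N Z k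
  rcases Nat.eq_zero_or_pos m with hm | hm
  · -- `m = 0`: no nonzero direction
    subst hm
    have hbad : ∀ D : Finset (Fin 0 → ZMod p), bad k D = 0 := by
      intro D
      unfold bad
      rw [Finset.card_eq_zero, Finset.filter_eq_empty_iff]
      intro xd _ h
      exact h.1 (Subsingleton.elim _ _)
    have e3 : ∑ ω : Fin N → (Fin 0 → ZMod p) × ZMod p,
        ((p : ℝ) ^ 0 * (V p N Z : ℝ) / (p : ℝ) ^ N -
          (p : ℝ) ^ (2 * 0) * (B p N Z k : ℝ) / (p : ℝ) ^ (2 * N)) ≤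
        ∑ ω : Fin N → (Fin 0 → ZMod p) × ZMod p, (((avgD p 0 N Z ω).card : ℝ) -
          (bad k (avgD p 0 N Z ω) : ℝ)) := by
      rw [Finset.sum_const, Finset.sum_sub_distrib]
      have e4 : (∑ ω : Fin N → (Fin 0 → ZMod p) × ZMod p, ((avgD p 0 N Z ω).card : ℝ)) =
          (p : ℝ) ^ 0 * ((V p N Z : ℝ) * ((p : ℝ) ^ 0) ^ N) := by exact_mod_cast e1
      have e5 : (∑ ω : Fin N → (Fin 0 → ZMod p) × ZMod p,
          (bad k (avgD p 0 N Z ω) : ℝ)) = 0 :=
        Finset.sum_eq_zero fun ω _ => by rw [hbad]; simp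
      rw [e4, e5, Finset.card_univ]
      have e6 : Fintype.card (Fin N → (Fin 0 → ZMod p) × ZMod p) = p ^ N := by
        simp [ZMod.card]
      rw [e6, nsmul_eq_mul]
      push_cast
      have hpN : (0 : ℝ) < (p : ℝ) ^ N := by positivity
      have e8 : (p : ℝ) ^ N * ((p : ℝ) ^ 0 * (V p N Z : ℝ) / (p : ℝ) ^ N) = V p N Z := by
        field_simp
      have e9 : 0 ≤ (p : ℝ) ^ N * ((B p N Z k : ℝ) / (p : ℝ) ^ (2 * N)) := by positivity
      rw [mul_sub, e8]
      simp only [pow_zero, one_pow, one_mul, mul_one, sub_zero]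
      linarith
    obtain ⟨ω, -, hω⟩ := Finset.exists_le_of_sum_le Finset.univ_nonempty e3
    exact ⟨_, hω⟩
  · obtain ⟨m', rfl⟩ : ∃ m', m = m' + 1 := ⟨m - 1, by omega⟩
    have ha : p ^ (m' + 1) / p = p ^ m' := by
      rw [pow_succ, Nat.mul_div_cancel _ hp]
    rw [ha] at e2
    have e3 : ∑ ω : Fin N → (Fin (m' + 1) → ZMod p) × ZMod p,
        ((p : ℝ) ^ (m' + 1) * (V p N Z : ℝ) / (p : ℝ) ^ N -
          (p : ℝ) ^ (2 * (m' + 1)) * (B p N Z k : ℝ) / (p : ℝ) ^ (2 * N)) ≤
        ∑ ω : Fin N → (Fin (m' + 1) → ZMod p) × ZMod p, (((avgD p (m' + 1) N Z ω).card : ℝ) -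
          (bad k (avgD p (m' + 1) N Z ω) : ℝ)) := by
      rw [Finset.sum_const, Finset.sum_sub_distrib]
      have e4 : (∑ ω : Fin N → (Fin (m' + 1) → ZMod p) × ZMod p,
          ((avgD p (m' + 1) N Z ω).card : ℝ)) =
          (p : ℝ) ^ (m' + 1) * ((V p N Z : ℝ) * ((p : ℝ) ^ (m' + 1)) ^ N) := by exact_mod_cast e1
      have e5 : (∑ ω : Fin N → (Fin (m' + 1) → ZMod p) × ZMod p,
          (bad k (avgD p (m' + 1) N Z ω) : ℝ)) ≤
          ((p : ℝ) ^ (m' + 1) * (p : ℝ) ^ (m' + 1)) * ((B p N Z k : ℝ) * ((p : ℝ) ^ m') ^ N) := by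
        exact_mod_cast e2
      rw [e4, Finset.card_univ]
      have e6 : Fintype.card (Fin N → (Fin (m' + 1) → ZMod p) × ZMod p) =
          (p ^ (m' + 1) * p) ^ N := by
        simp [ZMod.card]
      rw [e6, nsmul_eq_mul]
      push_cast
      have hpN : (0 : ℝ) < (p : ℝ) ^ N := by positivity
      have e7 : ((p : ℝ) ^ (m' + 1) * p) ^ N *
          ((p : ℝ) ^ (m' + 1) * (V p N Z : ℝ) / (p : ℝ) ^ N) =
          (p : ℝ) ^ (m' + 1) * ((V p N Z : ℝ) * ((p : ℝ) ^ (m' + 1)) ^ N) := by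
        rw [mul_pow]
        field_simp
      have e8 : ((p : ℝ) ^ (m' + 1) * p) ^ N *
          ((p : ℝ) ^ (2 * (m' + 1)) * (B p N Z k : ℝ) / (p : ℝ) ^ (2 * N)) =
          ((p : ℝ) ^ (m' + 1) * (p : ℝ) ^ (m' + 1)) * ((B p N Z k : ℝ) * ((p : ℝ) ^ m') ^ N) := by
        have e9 : ((p : ℝ) ^ (m' + 1) * p) ^ N = ((p : ℝ) ^ m') ^ N * (p : ℝ) ^ (2 * N) := by
          rw [pow_mul, ← mul_pow]
          congr 1
          ring
        rw [e9]
        field_simp
        ring
      rw [mul_sub, e7, e8]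
      linarith
    obtain ⟨ω, -, hω⟩ := Finset.exists_le_of_sum_le Finset.univ_nonempty e3
    exact ⟨_, hω⟩

end Pool.Agent.H311.KAP
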