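import Pool.Agent.H311.KAP.Defs5

/-!
# Project KAP (helper311): one coordinate, the Chernoff bound and its real form, with `1/5`

Adaptation of `One.lean` (helper539) and of `Chern.lean`.
-/

set_option autoImplicit false

open Finset

namespace Pool.Agent.H311.KAP

theorem chern5_row (p k : ℕ) [Fact p.Prime] (hk : k ≤ p) (e : ZMod p) (he : e ≠ 0) :
    (univ.filter (fun c : ZMod p => ((Finset.range k).filter
      (fun j : ℕ => c + (j : ZMod p) * e = 0)).card = 0)).card ≤ p - k := by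
  classical
  have hinj : Set.InjOn (fun j : ℕ => -((j : ZMod p) * e)) (Finset.range k : Finset ℕ) := by
    intro i hi j hj hij
    rw [Finset.mem_coe, Finset.mem_range] at hi hj
    have h1 : (i : ZMod p) * e = (j : ZMod p) * e := neg_injective hij
    have h2 : (i : ZMod p) = (j : ZMod p) := mul_right_cancel₀ he h1
    rw [ZMod.natCast_eq_natCast_iff'] at h2
    rwa [Nat.mod_eq_of_lt (by omega), Nat.mod_eq_of_lt (by omega)] at h2
  have hsub : univ.filter (fun c : ZMod p => ((Finset.range k).filter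
      (fun j : ℕ => c + (j : ZMod p) * e = 0)).card = 0) ⊆
      univ \ (Finset.range k).image (fun j : ℕ => -((j : ZMod p) * e)) := by
    intro c hc
    rw [Finset.mem_filter, Finset.card_eq_zero, Finset.filter_eq_empty_iff] at hc
    rw [Finset.mem_sdiff]
    refine ⟨Finset.mem_univ _, fun h => ?_⟩
    obtain ⟨j, hj, hjc⟩ := Finset.mem_image.1 h
    apply hc.2 hj
    rw [← hjc]
    ring
  refine (Finset.card_le_card hsub).trans ?_
  rw [Finset.card_sdiff_of_subset (Finset.subset_univ _), Finset.card_image_of_injOn hinj,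
    Finset.card_range, Finset.card_univ, ZMod.card]

/-- **K5'.** -/
theorem one5 : S_one5 := by
  intro p k q _ hkq hq
  classical
  have hp : 0 < p := (Fact.out : p.Prime).pos
  have hkp : k ≤ p := by omega
  have h1 : ∀ ce : ZMod p × ZMod p,
      (1 / 5 : ℝ) ^ ((Finset.range k).filter
        (fun j : ℕ => ce.1 + (j : ZMod p) * ce.2 = 0)).card ≤
      4 / 5 * (if ((Finset.range k).filter
        (fun j : ℕ => ce.1 + (j : ZMod p) * ce.2 = 0)).card = 0 then 1 else 0) + 1 / 5 := by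
    intro ce
    split_ifs with h
    · rw [h, pow_zero]
      norm_num
    · rw [mul_zero, zero_add]
      exact pow_le_of_le_one (by norm_num) (by norm_num) h
  refine (Finset.sum_le_sum fun ce _ => h1 ce).trans ?_
  rw [Finset.sum_add_distrib, ← Finset.mul_sum, Finset.sum_const, Finset.card_univ,
    Fintype.card_prod, ZMod.card, nsmul_eq_mul]
  have h2 : ∑ ce : ZMod p × ZMod p, (if ((Finset.range k).filter
      (fun j : ℕ => ce.1 + (j : ZMod p) * ce.2 = 0)).card = 0 then (1 : ℝ) else 0) ≤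
      (p : ℝ) * q := by
    rw [Fintype.sum_prod_type_right]
    have h3 : ∀ e : ZMod p, ∑ c : ZMod p, (if ((Finset.range k).filter
        (fun j : ℕ => (c, e).1 + (j : ZMod p) * (c, e).2 = 0)).card = 0 then (1 : ℝ) else 0) ≤
        (if e = 0 then (p : ℝ) else 0) + (if e = 0 then 0 else ((p - k : ℕ) : ℝ)) := by
      intro e
      rw [Finset.sum_boole]
      split_ifs with he
      · rw [add_zero]
        have h4 := Finset.card_filter_le (univ : Finset (ZMod p)) (fun c =>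
          ((Finset.range k).filter (fun j : ℕ => (c, e).1 + (j : ZMod p) * (c, e).2 = 0)).card = 0)
        rw [Finset.card_univ, ZMod.card] at h4
        exact_mod_cast h4
      · rw [zero_add]
        exact_mod_cast chern5_row p k hkp e he
    refine (Finset.sum_le_sum fun e _ => h3 e).trans ?_
    rw [Finset.sum_add_distrib, Finset.sum_ite_eq' univ (0 : ZMod p), if_pos (Finset.mem_univ _)]
    have h5 : ∑ e : ZMod p, (if e = 0 then 0 else ((p - k : ℕ) : ℝ)) =
        ((p : ℝ) - 1) * ((p - k : ℕ) : ℝ) := by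
      rw [Finset.sum_ite, Finset.sum_const_zero, zero_add, Finset.sum_const, nsmul_eq_mul]
      congr 1
      rw [Finset.filter_ne' , Finset.card_erase_of_mem (Finset.mem_univ _), Finset.card_univ,
        ZMod.card, Nat.cast_sub hp, Nat.cast_one]
    rw [h5]
    have h6 : ((p - k : ℕ) : ℝ) = (q : ℝ) - 1 := by
      have h7 : p - k = q - 1 := by omega
      rw [h7, Nat.cast_sub hq, Nat.cast_one]
    rw [h6]
    have h8 : (1 : ℝ) ≤ q := by exact_mod_cast hq
    nlinarith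
  have h3 : ((p * p : ℕ) : ℝ) * (1 / 5) = (p : ℝ) ^ 2 / 5 := by
    push_cast
    ring
  rw [h3]
  linarith

/-- the weight of one coordinate -/
noncomputable def chern5g (p k : ℕ) (ce : ZMod p × ZMod p) : ℝ :=
  (1 / 5 : ℝ) ^ ((Finset.range k).filter (fun j : ℕ => ce.1 + (j : ZMod p) * ce.2 = 0)).card

theorem chern5g_nonneg (p k : ℕ) (ce : ZMod p × ZMod p) : 0 ≤ chern5g p k ce := by
  unfold chern5g; positivity

theorem chern5_sum (p N k : ℕ) [NeZero p] :
    ∑ ce : (Fin N → ZMod p) × (Fin N → ZMod p), ∏ i, chern5g p k (ce.1 i, ce.2 i) =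
      (∑ ce : ZMod p × ZMod p, chern5g p k ce) ^ N := by
  rw [Fintype.sum_pow]
  symm
  refine Fintype.sum_equiv (Equiv.arrowProdEquivProdArrow (Fin N) (fun _ => ZMod p)
    (fun _ => ZMod p)) _ _ fun f => ?_
  rfl

theorem chern5_count (p N k : ℕ) (ce : (Fin N → ZMod p) × (Fin N → ZMod p)) :
    ∑ i, ((Finset.range k).filter (fun j : ℕ => ce.1 i + (j : ZMod p) * ce.2 i = 0)).card =
      ∑ j ∈ Finset.range k, nz (ce.1 + (j : ZMod p) • ce.2) := by
  unfold nz
  simp only [Finset.card_filter]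
  rw [Finset.sum_comm]
  refine Finset.sum_congr rfl fun j _ => Finset.sum_congr rfl fun i _ => ?_
  simp only [Pi.add_apply, Pi.smul_apply, smul_eq_mul]

theorem chern5_one (p N Z k : ℕ) (ce : (Fin N → ZMod p) × (Fin N → ZMod p))
    (h : ∀ j : ℕ, j < k → nz (ce.1 + (j : ZMod p) • ce.2) ≤ Z) :
    1 ≤ (5 : ℝ) ^ (k * Z) * ∏ i, chern5g p k (ce.1 i, ce.2 i) := by
  have e : ∏ i, chern5g p k (ce.1 i, ce.2 i) =
      (1 / 5 : ℝ) ^ (∑ j ∈ Finset.range k, nz (ce.1 + (j : ZMod p) • ce.2)) := by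
    rw [← chern5_count, ← Finset.prod_pow_eq_pow_sum]
    rfl
  have h1 : ∑ j ∈ Finset.range k, nz (ce.1 + (j : ZMod p) • ce.2) ≤ k * Z := by
    calc ∑ j ∈ Finset.range k, nz (ce.1 + (j : ZMod p) • ce.2) ≤ ∑ _j ∈ Finset.range k, Z :=
          Finset.sum_le_sum fun j hj => h j (Finset.mem_range.1 hj)
      _ = k * Z := by rw [Finset.sum_const, Finset.card_range, smul_eq_mul]
  have h2 : (1 / 5 : ℝ) ^ (k * Z) ≤
      (1 / 5 : ℝ) ^ (∑ j ∈ Finset.range k, nz (ce.1 + (j : ZMod p) • ce.2)) :=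
    pow_le_pow_of_le_one (by norm_num) (by norm_num) h1
  rw [e]
  calc (1 : ℝ) = (5 : ℝ) ^ (k * Z) * (1 / 5 : ℝ) ^ (k * Z) := by
        rw [← mul_pow]; norm_num
    _ ≤ _ := mul_le_mul_of_nonneg_left h2 (by positivity)

/-- **K6'.** -/
theorem chern5 : S_chern5 := by
  intro p N Z k q _ hk hq
  have h1 := one5 p k q hk hq
  have h0 : (0 : ℝ) ≤ ∑ ce : ZMod p × ZMod p, chern5g p k ce :=
    Finset.sum_nonneg fun ce _ => chern5g_nonneg p k ce
  have h2 : (∑ ce : ZMod p × ZMod p, chern5g p k ce) ^ N ≤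
      ((p : ℝ) ^ 2 / 5 + 4 / 5 * ((p : ℝ) * q)) ^ N := pow_le_pow_left₀ h0 h1 N
  rw [← chern5_sum] at h2
  calc (B p N Z k : ℝ) = ∑ _ce ∈ univ.filter
        (fun ce : (Fin N → ZMod p) × (Fin N → ZMod p) =>
          ∀ j : ℕ, j < k → nz (ce.1 + (j : ZMod p) • ce.2) ≤ Z), (1 : ℝ) := by
        rw [Finset.sum_const, nsmul_eq_mul, mul_one]
        rfl
    _ ≤ ∑ ce ∈ univ.filter
        (fun ce : (Fin N → ZMod p) × (Fin N → ZMod p) =>
          ∀ j : ℕ, j < k → nz (ce.1 + (j : ZMod p) • ce.2) ≤ Z),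
        (5 : ℝ) ^ (k * Z) * ∏ i, chern5g p k (ce.1 i, ce.2 i) :=
        Finset.sum_le_sum fun ce hce => chern5_one p N Z k ce (Finset.mem_filter.1 hce).2
    _ ≤ ∑ ce : (Fin N → ZMod p) × (Fin N → ZMod p),
        (5 : ℝ) ^ (k * Z) * ∏ i, chern5g p k (ce.1 i, ce.2 i) :=
        Finset.sum_le_univ_sum_of_nonneg fun ce =>
          mul_nonneg (by positivity) (Finset.prod_nonneg fun i _ => chern5g_nonneg p k _)
    _ = (5 : ℝ) ^ (k * Z) * ∑ ce : (Fin N → ZMod p) × (Fin N → ZMod p),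
        ∏ i, chern5g p k (ce.1 i, ce.2 i) := by rw [Finset.mul_sum]
    _ ≤ 5 ^ (k * Z) * ((p : ℝ) ^ 2 / 5 + 4 / 5 * ((p : ℝ) * q)) ^ N :=
        mul_le_mul_of_nonneg_left h2 (by positivity)

/-- **K10'.** -/
theorem breal5 : S_Breal5 := by
  intro p q k M _ h8 hk hq
  have hp : 0 < p := (Fact.out : p.Prime).pos
  have hp0 : (0 : ℝ) < p := by exact_mod_cast hp
  have hb := chern5 p (p ^ 2 * M) ((p - 5 * q) * M) k q hk hq
  obtain ⟨N, hN⟩ : ∃ N, N = p ^ 2 * M := ⟨_, rfl⟩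
  obtain ⟨Z, hZ⟩ : ∃ Z, Z = (p - 5 * q) * M := ⟨_, rfl⟩
  rw [← hN, ← hZ] at hb ⊢
  have hpZ : p * Z + 5 * q * p * M = N := by
    rw [hZ, hN]
    obtain ⟨s, hs⟩ : ∃ s, p = 5 * q + s := ⟨p - 5 * q, by omega⟩
    have e : p - 5 * q = s := by omega
    rw [e]
    calc p * (s * M) + 5 * q * p * M = p * (5 * q + s) * M := by ring
      _ = p ^ 2 * M := by rw [← hs]; ring
  have hkp : k * Z ≤ p * Z := Nat.mul_le_mul_right _ (by omega)
  have h1 : (5 : ℝ) ^ (k * Z) ≤ (5 : ℝ) ^ (p * Z) := pow_le_pow_right₀ (by norm_num) hkp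
  have e1 : (p : ℝ) ^ 2 / 5 + 4 / 5 * ((p : ℝ) * q) = (p : ℝ) ^ 2 * (1 / 5) * (1 + 4 * q / p) := by
    field_simp
  have h2 : (1 + 4 * (q : ℝ) / p) ^ N ≤ Real.exp (4 * q * p * M) := by
    have h3 : 1 + 4 * (q : ℝ) / p ≤ Real.exp (4 * q / p) := by
      have := Real.add_one_le_exp (4 * (q : ℝ) / p)
      linarith
    refine (pow_le_pow_left₀ (by positivity) h3 N).trans (le_of_eq ?_)
    rw [← Real.exp_nat_mul, hN]
    congr 1
    push_cast
    field_simp
  have h4 : (5 : ℝ) ^ (p * Z) * (1 / 5) ^ N = Real.exp (-(5 * q * p * M * Real.log 5)) := by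
    have e2 : (5 : ℝ) ^ (5 * q * p * M) = Real.exp (5 * q * p * M * Real.log 5) := by
      rw [← Real.rpow_natCast, Real.rpow_def_of_pos (by norm_num), mul_comm]
      push_cast
      rfl
    rw [← hpZ, pow_add, ← mul_assoc, ← mul_pow, Real.exp_neg, ← e2,
      show (5 : ℝ) * (1 / 5) = 1 by norm_num, one_pow, one_mul, one_div, inv_pow]
  have hP : (0 : ℝ) < (p : ℝ) ^ (2 * N) := by positivity
  rw [div_le_iff₀ hP]
  calc (B p N Z k : ℝ) ≤ 5 ^ (k * Z) * ((p : ℝ) ^ 2 / 5 + 4 / 5 * ((p : ℝ) * q)) ^ N := hb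
    _ ≤ 5 ^ (p * Z) * ((p : ℝ) ^ 2 / 5 + 4 / 5 * ((p : ℝ) * q)) ^ N :=
        mul_le_mul_of_nonneg_right h1 (by positivity)
    _ = (5 ^ (p * Z) * (1 / 5) ^ N) * (1 + 4 * q / p) ^ N * (p : ℝ) ^ (2 * N) := by
        rw [e1, mul_pow, mul_pow, ← pow_mul]
        ring
    _ ≤ (5 ^ (p * Z) * (1 / 5) ^ N) * Real.exp (4 * q * p * M) * (p : ℝ) ^ (2 * N) := by
        gcongr
    _ = Real.exp (-((q : ℝ) * p * M * (5 * Real.log 5 - 4))) * (p : ℝ) ^ (2 * N) := by
        rw [h4, ← Real.exp_add]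
        congr 2
        ring

end Pool.Agent.H311.KAP
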