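import Pool.Agent.H311.KAP.Defs

/-!
# K1 deletion and K12 from a set to `lam`
-/

set_option autoImplicit false

open Finset

namespace Pool.Agent.H311.KAP

theorem del : S_del := by
  intro p m k _ hk D
  set F : Finset ((Fin m → ZMod p) × (Fin m → ZMod p)) :=
    univ.filter (fun xd : (Fin m → ZMod p) × (Fin m → ZMod p) =>
      xd.2 ≠ 0 ∧ ∀ j : ℕ, j < k → xd.1 + (j : ZMod p) • xd.2 ∈ D) with hF
  refine ⟨D \ F.image Prod.fst, sdiff_subset, ?_, ?_⟩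
  · intro x y h
    by_contra hy
    have h0 := h 0 (by omega)
    rw [Nat.cast_zero, zero_smul, add_zero, mem_sdiff] at h0
    apply h0.2
    rw [mem_image]
    refine ⟨(x, y), ?_, rfl⟩
    rw [hF, mem_filter]
    exact ⟨mem_univ _, hy, fun j hj => (mem_sdiff.1 (h j hj)).1⟩
  · have h1 : D.card ≤ (D \ F.image Prod.fst).card + (F.image Prod.fst).card :=
      card_le_card_sdiff_add_card
    have h2 : (F.image Prod.fst).card ≤ F.card := card_image_le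
    have h3 : F.card = bad k D := rfl
    omega

theorem lamlb_pow {a : ℝ} (ha : 0 ≤ a) (n : ℕ) : (a ^ (n + 1)) ^ (1 / ((n : ℝ) + 1)) = a := by
  rw [← Real.rpow_natCast, ← Real.rpow_mul ha]
  push_cast
  rw [mul_one_div_cancel (by positivity), Real.rpow_one]

theorem lamlb : S_lam := by
  intro p k m _ x A hm hx hA hxA
  have hbdd : ∀ n : ℕ, ∀ c ∈ {c : ℕ | ∃ A : Finset (Fin n → ZMod p), APFree k A ∧ A.card = c},
      c ≤ p ^ n := by
    rintro n c ⟨A, -, rfl⟩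
    calc A.card ≤ Fintype.card (Fin n → ZMod p) := Finset.card_le_univ A
      _ = p ^ n := by rw [Fintype.card_fun, ZMod.card, Fintype.card_fin]
  have hr : ∀ n : ℕ, r k p n ≤ p ^ n := fun n => csSup_le' (hbdd n)
  have hAr : A.card ≤ r k p m := le_csSup ⟨p ^ m, hbdd m⟩ ⟨A, hA, rfl⟩
  obtain ⟨n, rfl⟩ : ∃ n, m = n + 1 := ⟨m - 1, by omega⟩
  have h1 : x ≤ (r k p (n + 1) : ℝ) ^ (1 / ((n : ℝ) + 1)) := by
    have h2 : x ^ (n + 1) ≤ (r k p (n + 1) : ℝ) := hxA.trans (by exact_mod_cast hAr)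
    calc x = (x ^ (n + 1)) ^ (1 / ((n : ℝ) + 1)) := (lamlb_pow hx n).symm
      _ ≤ (r k p (n + 1) : ℝ) ^ (1 / ((n : ℝ) + 1)) :=
        Real.rpow_le_rpow (by positivity) h2 (by positivity)
  refine h1.trans (le_ciSup (f := fun n : ℕ => (r k p (n + 1) : ℝ) ^ (1 / ((n : ℝ) + 1)))
    ⟨(p : ℝ), ?_⟩ n)
  rintro _ ⟨j, rfl⟩
  have h3 : (r k p (j + 1) : ℝ) ≤ (p : ℝ) ^ (j + 1) := by exact_mod_cast hr (j + 1)
  calc (r k p (j + 1) : ℝ) ^ (1 / ((j : ℝ) + 1)) ≤ ((p : ℝ) ^ (j + 1)) ^ (1 / ((j : ℝ) + 1)) :=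
        Real.rpow_le_rpow (Nat.cast_nonneg _) h3 (by positivity)
    _ = p := lamlb_pow (Nat.cast_nonneg _) j

end Pool.Agent.H311.KAP
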