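import Pool.Agent.H311.KAP.Defs

/-!
# K2 and K3: fibres of affine functionals
-/

set_option autoImplicit false

open Finset

namespace Pool.Agent.H311.KAP

theorem fib1 : S_fib1 := by
  intro p m _ x c
  have e : (univ.filter (fun f : (Fin m → ZMod p) × ZMod p => ∑ i, f.1 i * x i + f.2 = c)) =
      univ.image (fun u : Fin m → ZMod p => (u, c - ∑ i, u i * x i)) := by
    ext ⟨u, b⟩
    simp only [mem_filter, mem_univ, true_and, mem_image, Prod.mk.injEq]
    constructor
    · intro h
      exact ⟨u, rfl, by rw [← h]; ring⟩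
    · rintro ⟨u', rfl, rfl⟩
      ring
  rw [e, card_image_of_injective _ (fun a b h => (Prod.mk.inj h).1), card_univ, Fintype.card_fun,
    ZMod.card, Fintype.card_fin]

/-- the fibres of a nonzero linear functional have the same size -/
lemma fib_shift {p m : ℕ} [Fact p.Prime] (d : Fin m → ZMod p) (i0 : Fin m) (hd : d i0 ≠ 0)
    (e e' : ZMod p) :
    (univ.filter (fun u : Fin m → ZMod p => ∑ i, u i * d i = e)).card ≤
      (univ.filter (fun u : Fin m → ZMod p => ∑ i, u i * d i = e')).card := by
  apply Finset.card_le_card_of_injOn (fun u => u + Pi.single i0 ((e' - e) / d i0))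
  · intro u hu
    have hu' : ∑ i, u i * d i = e := (mem_filter.1 (Finset.mem_coe.1 hu)).2
    refine Finset.mem_coe.2 (mem_filter.2 ⟨mem_univ _, ?_⟩)
    have h1 : ∑ i, (u + Pi.single i0 ((e' - e) / d i0) : Fin m → ZMod p) i * d i =
        ∑ i, u i * d i + (e' - e) / d i0 * d i0 := by
      simp only [Pi.add_apply, add_mul, Finset.sum_add_distrib]
      congr 1
      rw [Finset.sum_eq_single i0]
      · rw [Pi.single_eq_same]
      · intro b _ hb
        rw [Pi.single_eq_of_ne hb, zero_mul]
      · intro h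
        exact absurd (mem_univ _) h
    rw [h1, hu', div_mul_cancel₀ _ hd]
    ring
  · intro a _ b _ h
    exact add_right_cancel h

/-- the size of the fibres of a nonzero linear functional -/
lemma fib_lin {p m : ℕ} [Fact p.Prime] (d : Fin m → ZMod p) (hd : d ≠ 0) (e : ZMod p) :
    (univ.filter (fun u : Fin m → ZMod p => ∑ i, u i * d i = e)).card * p = p ^ m := by
  obtain ⟨i0, hi0⟩ : ∃ i, d i ≠ 0 := by
    by_contra h
    push Not at h
    exact hd (funext h)
  have h1 : (univ : Finset (Fin m → ZMod p)).card =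
      ∑ e' ∈ (univ : Finset (ZMod p)),
        (univ.filter (fun u : Fin m → ZMod p => ∑ i, u i * d i = e')).card :=
    Finset.card_eq_sum_card_fiberwise fun _ _ => Finset.mem_coe.2 (mem_univ _)
  rw [card_univ, Fintype.card_fun, ZMod.card, Fintype.card_fin] at h1
  rw [h1, Finset.sum_congr rfl fun e' _ => le_antisymm (fib_shift d i0 hi0 e' e)
    (fib_shift d i0 hi0 e e'), Finset.sum_const, card_univ, ZMod.card, smul_eq_mul, mul_comm]

theorem fib2 : S_fib2 := by
  intro p m _ x d c e hd
  have h1 : (univ.filter (fun f : (Fin m → ZMod p) × ZMod p =>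
      ∑ i, f.1 i * x i + f.2 = c ∧ ∑ i, f.1 i * d i = e)) =
      (univ.filter (fun u : Fin m → ZMod p => ∑ i, u i * d i = e)).image
        (fun u : Fin m → ZMod p => (u, c - ∑ i, u i * x i)) := by
    ext ⟨u, b⟩
    simp only [mem_filter, mem_univ, true_and, mem_image, Prod.mk.injEq]
    constructor
    · rintro ⟨h, h'⟩
      exact ⟨u, h', rfl, by rw [← h]; ring⟩
    · rintro ⟨u', h', rfl, rfl⟩
      exact ⟨by ring, h'⟩
  rw [h1, card_image_of_injective _ (fun a b h => (Prod.mk.inj h).1)]
  exact fib_lin d hd e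

end Pool.Agent.H311.KAP
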