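import Pool.Agent.H311.KAP.Defs5

/-!
K11': the choice of the numbers `M` and `m`, better constants.
-/

set_option autoImplicit false

open Finset Filter

namespace Pool.Agent.H311.KAP

theorem num5_ev {P : ℝ} (hP : 0 < P) (C : ℝ) :
    ∃ M₀ : ℕ, ∀ M : ℕ, M₀ ≤ M → Real.log (P ^ 2 * M + 1) + C ≤ M / (2 * P) := by
  have hc : 0 < 1 / (4 * P) := by positivity
  have h1 : ∀ᶠ x : ℝ in atTop, ‖Real.log x‖ ≤ 1 / (4 * P) * ‖id x‖ :=
    Real.isLittleO_log_id_atTop.bound hc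
  have h2 : ∀ᶠ M : ℕ in atTop, ‖Real.log (M : ℝ)‖ ≤ 1 / (4 * P) * ‖id (M : ℝ)‖ :=
    tendsto_natCast_atTop_atTop.eventually h1
  have h3 : ∀ᶠ M : ℕ in atTop, 4 * P * (Real.log (P ^ 2 + 1) + C) ≤ (M : ℝ) :=
    tendsto_natCast_atTop_atTop.eventually (eventually_ge_atTop _)
  obtain ⟨M₀, hM₀⟩ := eventually_atTop.mp (h2.and (h3.and (eventually_ge_atTop 1)))
  refine ⟨M₀, fun M hM => ?_⟩
  obtain ⟨h4, h5, h6⟩ := hM₀ M hM
  have hM : (1 : ℝ) ≤ M := by exact_mod_cast h6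
  have h7 : Real.log (M : ℝ) ≤ 1 / (4 * P) * M := by
    have h8 := (le_abs_self _).trans h4
    rwa [id_eq, Real.norm_eq_abs, abs_of_nonneg (by linarith : (0 : ℝ) ≤ M)] at h8
  have h8 : Real.log (P ^ 2 + 1) + C ≤ 1 / (4 * P) * M := by
    rw [div_mul_eq_mul_div, one_mul, le_div_iff₀ (by positivity)]
    linarith
  have h9 : Real.log (P ^ 2 * M + 1) ≤ Real.log (P ^ 2 + 1) + Real.log (M : ℝ) := by
    rw [← Real.log_mul (by positivity) (by positivity)]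
    refine Real.log_le_log (by positivity) ?_
    nlinarith
  have h10 : 1 / (4 * P) * (M : ℝ) + 1 / (4 * P) * M = M / (2 * P) := by
    field_simp
    ring
  linarith

theorem num5_log : (1609 / 1000 : ℝ) ≤ Real.log 5 := by
  have h1 : (2 : ℝ) ^ 65 ≤ 5 ^ 28 := by norm_num
  have h2 := Real.log_le_log (by positivity) h1
  rw [Real.log_pow, Real.log_pow] at h2
  have h3 := Real.log_two_gt_d9
  push_cast at h2
  linarith

theorem num5_G {x : ℝ} (h0 : 0 ≤ x) (h1 : x ≤ 5 / 13) : G x ≤ 5908 / 10000 * x ^ 2 := by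
  have hs := Real.hasSum_pow_div_log_of_abs_lt_one (x := x) (by
    rw [abs_of_nonneg h0]
    linarith)
  have h2 := sum_le_hasSum (Finset.range 4) (fun i _ => by positivity) hs
  simp only [Finset.sum_range_succ, Finset.sum_range_zero] at h2
  norm_num at h2
  have h3 : Real.log (1 - x) ≤ -(x + x ^ 2 / 2 + x ^ 3 / 3 + x ^ 4 / 4) := by linarith
  have h4 : (1 - x) * Real.log (1 - x) ≤ (1 - x) * -(x + x ^ 2 / 2 + x ^ 3 / 3 + x ^ 4 / 4) :=
    mul_le_mul_of_nonneg_left h3 (by linarith)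
  have h5 : x ^ 2 ≤ (5 / 13) ^ 2 := pow_le_pow_left₀ h0 h1 2
  have h6 : x ^ 3 ≤ (5 / 13) ^ 3 := pow_le_pow_left₀ h0 h1 3
  have h7 : 1 / 2 + x / 6 + x ^ 2 / 12 + x ^ 3 / 4 ≤ 5908 / 10000 := by
    norm_num at h5 h6
    linarith
  have h8 := mul_le_mul_of_nonneg_right h7 (sq_nonneg x)
  unfold G
  calc (1 - x) * Real.log (1 - x) + x
      ≤ (1 - x) * -(x + x ^ 2 / 2 + x ^ 3 / 3 + x ^ 4 / 4) + x := by linarith
    _ = (1 / 2 + x / 6 + x ^ 2 / 12 + x ^ 3 / 4) * x ^ 2 := by ring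
    _ ≤ _ := h8

/-- the bound for the main term -/
theorem num5_E {P Q : ℝ} (hQ : 1 ≤ Q) (hPQ : 13 * Q ≤ P) :
    G (5 * Q / P) + (5 * Q / P) ^ 2 / (P - 1) ≤ 16855 / 1000 * (Q ^ 2 / P ^ 2) := by
  have hP : 13 ≤ P := by linarith
  have hP0 : 0 < P := by linarith
  have h1 : 5 * Q / P ≤ 5 / 13 := by
    rw [div_le_div_iff₀ hP0 (by norm_num)]
    linarith
  have h2 := num5_G (by positivity : 0 ≤ 5 * Q / P) h1
  have h3 : (5 * Q / P) ^ 2 / (P - 1) ≤ (5 * Q / P) ^ 2 / 12 :=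
    div_le_div_of_nonneg_left (sq_nonneg _) (by norm_num) (by linarith)
  have h4 : (5 * Q / P) ^ 2 = 25 * (Q ^ 2 / P ^ 2) := by
    rw [div_pow, mul_pow]
    ring
  have h5 : 0 ≤ Q ^ 2 / P ^ 2 := by positivity
  rw [h4] at h2 h3 ⊢
  linarith

/-- **K11'.** -/
theorem num5 : S_num5 := by
  intro p q hq h13
  obtain ⟨P, hPd⟩ : ∃ P : ℝ, P = (p : ℝ) := ⟨_, rfl⟩
  obtain ⟨Q, hQd⟩ : ∃ Q : ℝ, Q = (q : ℝ) := ⟨_, rfl⟩
  have hQ : 1 ≤ Q := by
    rw [hQd]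
    exact_mod_cast hq
  have hPQ : 13 * Q ≤ P := by
    rw [hPd, hQd]
    exact_mod_cast h13
  have hP : 13 ≤ P := by linarith
  have hP0 : 0 < P := by linarith
  have hQ0 : 0 < Q := by linarith
  rw [← hPd, ← hQd]
  obtain ⟨L, hL⟩ : ∃ L : ℝ, L = Real.log P := ⟨_, rfl⟩
  have hL0 : 0 < L := by
    rw [hL]
    exact Real.log_pos (by linarith)
  obtain ⟨E, hE⟩ : ∃ E : ℝ, E = G (5 * Q / P) + (5 * Q / P) ^ 2 / (P - 1) := ⟨_, rfl⟩
  have hEb : E ≤ 16855 / 1000 * (Q ^ 2 / P ^ 2) := by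
    rw [hE]
    exact num5_E hQ hPQ
  obtain ⟨M₀, hM₀⟩ := num5_ev hP0 (Real.log 2 + 18 * (Q ^ 2 / P))
  have hc : 0 < 394 / 100 * (Q * P) := by positivity
  refine ⟨max 1 ⌈394 / 100 * (Q * P) * M₀ / L⌉₊, fun m hm => ?_⟩
  have hm1 : 1 ≤ m := le_trans (le_max_left _ _) hm
  have hm2 : 394 / 100 * (Q * P) * M₀ / L ≤ m :=
    (Nat.le_ceil _).trans (by exact_mod_cast (le_trans (le_max_right _ _) hm))
  have hm0 : (1 : ℝ) ≤ m := by exact_mod_cast hm1
  obtain ⟨M, hM⟩ : ∃ M : ℕ, M = ⌈(m : ℝ) * L / (394 / 100 * (Q * P))⌉₊ := ⟨_, rfl⟩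
  have hX : 0 < (m : ℝ) * L / (394 / 100 * (Q * P)) := by positivity
  have hM1 : 1 ≤ M := by
    rw [hM]
    exact Nat.one_le_ceil_iff.mpr hX
  have hMl : (m : ℝ) * L ≤ 394 / 100 * (Q * P) * M := by
    have h1 : (m : ℝ) * L / (394 / 100 * (Q * P)) ≤ M := by
      rw [hM]
      exact Nat.le_ceil _
    rw [div_le_iff₀ hc] at h1
    linarith
  have hMu : 394 / 100 * (Q * P) * M ≤ (m : ℝ) * L + 394 / 100 * (Q * P) := by
    have h1 : (M : ℝ) < (m : ℝ) * L / (394 / 100 * (Q * P)) + 1 := by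
      rw [hM]
      exact Nat.ceil_lt_add_one hX.le
    have h2 : (M : ℝ) - 1 < (m : ℝ) * L / (394 / 100 * (Q * P)) := by linarith
    rw [lt_div_iff₀ hc] at h2
    linarith
  have hMM : M₀ ≤ M := by
    rw [div_le_iff₀ hL0] at hm2
    have h1 : 394 / 100 * (Q * P) * (M₀ : ℝ) ≤ 394 / 100 * (Q * P) * M := by linarith
    have h2 := le_of_mul_le_mul_left h1 hc
    exact_mod_cast h2
  have hMlog := hM₀ M hMM
  obtain ⟨W, hW⟩ : ∃ W : ℝ, W = (M : ℝ) := ⟨_, rfl⟩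
  have hW1 : 1 ≤ W := by
    rw [hW]
    exact_mod_cast hM1
  have hW0 : 0 < W := by linarith
  have hPE : P * W * E ≤ 16855 / 1000 * (Q ^ 2 * W / P) := by
    have h1 := mul_le_mul_of_nonneg_left hEb (by positivity : 0 ≤ P * W)
    calc P * W * E ≤ P * W * (16855 / 1000 * (Q ^ 2 / P ^ 2)) := h1
      _ = _ := by
        field_simp
  refine ⟨M, hM1, ?_, ?_⟩
  · rw [← hE, ← hL]
    rw [← hW] at hMlog hMl hMu ⊢
    have h5 : 0 < Q * P * W := by positivity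
    have hP2 : 169 ≤ P * P := by nlinarith
    have h1 : 16855 / 1000 * (Q ^ 2 * W / P) ≤ 998 / 10000 * (Q * P * W) := by
      rw [mul_div_assoc', div_le_iff₀ hP0]
      have h2 : 16855 / 1000 * Q ≤ 998 / 10000 * (P * P) := by nlinarith
      have h3 : 0 ≤ Q * W := by positivity
      have h4 := mul_le_mul_of_nonneg_right h2 h3
      calc 16855 / 1000 * (Q ^ 2 * W) = 16855 / 1000 * Q * (Q * W) := by ring
        _ ≤ 998 / 10000 * (P * P) * (Q * W) := h4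
        _ = _ := by ring
    have h2 : W / (2 * P) ≤ 52 / 10000 * (Q * P * W) := by
      rw [div_le_iff₀ (by positivity)]
      have h3 : 1 ≤ 104 / 10000 * (Q * (P * P)) := by nlinarith
      have h6 := mul_le_mul_of_nonneg_right h3 hW0.le
      calc W = 1 * W := (one_mul W).symm
        _ ≤ 104 / 10000 * (Q * (P * P)) * W := h6
        _ = _ := by ring
    have h3 : 0 ≤ 18 * (Q ^ 2 / P) := by positivity
    have h6 : 4045 / 1000 * (Q * P * W) ≤ Q * P * W * (5 * Real.log 5 - 4) := by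
      have h7 : (4045 / 1000 : ℝ) ≤ 5 * Real.log 5 - 4 := by
        have := num5_log
        linarith
      have h8 := mul_le_mul_of_nonneg_right h7 h5.le
      linarith
    linarith
  · rw [← hE, ← hL]
    rw [← hW] at hMlog hMl hMu ⊢
    have h2 : W / (2 * P) ≤ 1 / 2 * (Q ^ 2 * W / P) := by
      rw [mul_div_assoc', div_le_div_iff₀ (by positivity) hP0]
      have h3 : 1 ≤ Q ^ 2 := one_le_pow₀ hQ
      have h4 := mul_le_mul_of_nonneg_right h3 (by positivity : 0 ≤ W * P)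
      linarith
    have h3 : 9 / 2 * Q / P ^ 2 * (394 / 100 * (Q * P) * W) ≤
        9 / 2 * Q / P ^ 2 * (m * L + 394 / 100 * (Q * P)) :=
      mul_le_mul_of_nonneg_left hMu (by positivity)
    have h4 : 9 / 2 * Q / P ^ 2 * (394 / 100 * (Q * P) * W) = 1773 / 100 * (Q ^ 2 * W / P) := by
      field_simp
      ring
    have h6 : 9 / 2 * Q / P ^ 2 * (m * L + 394 / 100 * (Q * P)) =
        9 / 2 * Q / P ^ 2 * (m * L) + 1773 / 100 * (Q ^ 2 / P) := by
      field_simp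
      ring
    have h5 : (m : ℝ) * ((1 - 9 / 2 * Q / P ^ 2) * L) =
        (m : ℝ) * L - 9 / 2 * Q / P ^ 2 * ((m : ℝ) * L) := by ring
    have h7 : 0 ≤ Q ^ 2 / P := by positivity
    have h8 : 0 ≤ Q ^ 2 * W / P := by positivity
    rw [h5]
    linarith

end Pool.Agent.H311.KAP
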