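import Pool.Agent.H311.KAP.Defs

/-!
# K7 entropy bound

`N ^ N ≤ (N + 1) * (N.choose Z * Z ^ Z * (N - Z) ^ (N - Z))` for `Z ≤ N`: the largest term of the
binomial expansion of `(Z + (N - Z)) ^ N` is the one with index `Z`.
-/

open Finset

namespace Pool.Agent.H311.KAP

/-- the `j`-th term of the binomial expansion of `(Z + T) ^ (Z + T)` -/
def entF (Z T j : ℕ) : ℕ := Z ^ j * T ^ (Z + T - j) * (Z + T).choose j

lemma ent_ratio (Z T j : ℕ) (hj : j < Z + T) :
    entF Z T (j + 1) * ((j + 1) * T) = entF Z T j * ((Z + T - j) * Z) := by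
  have h1 : (Z + T).choose (j + 1) * (j + 1) = (Z + T).choose j * (Z + T - j) :=
    Nat.choose_succ_right_eq _ _
  have h2 : T ^ (Z + T - j) = T ^ (Z + T - (j + 1)) * T := by
    rw [← pow_succ]
    congr 1
    omega
  unfold entF
  calc Z ^ (j + 1) * T ^ (Z + T - (j + 1)) * (Z + T).choose (j + 1) * ((j + 1) * T)
      = Z ^ j * Z * (T ^ (Z + T - (j + 1)) * T) * ((Z + T).choose (j + 1) * (j + 1)) := by ring
    _ = Z ^ j * Z * T ^ (Z + T - j) * ((Z + T).choose j * (Z + T - j)) := by rw [← h2, h1]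
    _ = Z ^ j * T ^ (Z + T - j) * (Z + T).choose j * ((Z + T - j) * Z) := by ring

lemma ent_up (Z T j : ℕ) (hj : j < Z) : entF Z T j ≤ entF Z T (j + 1) := by
  rcases Nat.eq_zero_or_pos T with hT | hT
  · subst hT
    have h0 : (0 : ℕ) ^ (Z + 0 - j) = 0 := zero_pow (by omega)
    unfold entF
    rw [h0]
    simp
  · have h := ent_ratio Z T j (by omega)
    have hle : (j + 1) * T ≤ (Z + T - j) * Z := by
      obtain ⟨d, rfl⟩ : ∃ d, Z = j + 1 + d := ⟨Z - (j + 1), by omega⟩
      have e : j + 1 + d + T - j = 1 + d + T := by omega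
      rw [e]
      nlinarith [Nat.zero_le (d * T), Nat.zero_le (d * d), Nat.zero_le (j * d),
        Nat.zero_le ((1 + d) * (j + 1 + d))]
    have h3 : entF Z T j * ((j + 1) * T) ≤ entF Z T (j + 1) * ((j + 1) * T) := by
      rw [h]
      exact Nat.mul_le_mul_left _ hle
    exact Nat.le_of_mul_le_mul_right h3 (by positivity)

lemma ent_down (Z T j : ℕ) (hj : Z ≤ j) (hj2 : j < Z + T) :
    entF Z T (j + 1) ≤ entF Z T j := by
  have hT : 0 < T := by omega
  have h := ent_ratio Z T j hj2
  have hle : (Z + T - j) * Z ≤ (j + 1) * T := by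
    obtain ⟨d, rfl⟩ : ∃ d, j = Z + d := ⟨j - Z, by omega⟩
    obtain ⟨e, rfl⟩ : ∃ e, T = d + e := ⟨T - d, by omega⟩
    have e1 : Z + (d + e) - (Z + d) = e := by omega
    rw [e1]
    nlinarith [Nat.zero_le (Z * d), Nat.zero_le (d * d), Nat.zero_le (d * e)]
  have h3 : entF Z T (j + 1) * ((j + 1) * T) ≤ entF Z T j * ((j + 1) * T) := by
    rw [h]
    exact Nat.mul_le_mul_left _ hle
  exact Nat.le_of_mul_le_mul_right h3 (by positivity)

lemma ent_left (Z T : ℕ) : ∀ d, d ≤ Z → entF Z T (Z - d) ≤ entF Z T Z := by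
  intro d
  induction d with
  | zero => intro _; simp
  | succ d ih =>
    intro hd
    have h1 := ent_up Z T (Z - (d + 1)) (by omega)
    have e : Z - (d + 1) + 1 = Z - d := by omega
    rw [e] at h1
    exact h1.trans (ih (by omega))

lemma ent_right (Z T : ℕ) : ∀ d, d ≤ T → entF Z T (Z + d) ≤ entF Z T Z := by
  intro d
  induction d with
  | zero => intro _; simp
  | succ d ih =>
    intro hd
    have h1 := ent_down Z T (Z + d) (by omega) (by omega)
    exact h1.trans (ih (by omega))

/-- K7 entropy bound. -/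
theorem ent : S_ent := by
  intro N Z hZ
  obtain ⟨T, rfl⟩ : ∃ T, N = Z + T := ⟨N - Z, by omega⟩
  have hmax : ∀ j ∈ Finset.range (Z + T + 1), entF Z T j ≤ entF Z T Z := by
    intro j hj
    have hj' : j < Z + T + 1 := Finset.mem_range.1 hj
    rcases le_total j Z with h | h
    · have := ent_left Z T (Z - j) (by omega)
      have e : Z - (Z - j) = j := by omega
      rwa [e] at this
    · have := ent_right Z T (j - Z) (by omega)
      have e : Z + (j - Z) = j := by omega
      rwa [e] at this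
  have hsum : (Z + T) ^ (Z + T) = ∑ j ∈ Finset.range (Z + T + 1), entF Z T j := by
    rw [add_pow]
    rfl
  have hle := Finset.sum_le_card_nsmul (Finset.range (Z + T + 1)) (entF Z T) (entF Z T Z) hmax
  rw [Finset.card_range, smul_eq_mul] at hle
  have eT : Z + T - Z = T := by omega
  rw [hsum, eT]
  refine hle.trans (le_of_eq ?_)
  unfold entF
  rw [eT]
  ring

end Pool.Agent.H311.KAP
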