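import Pool.Agent.H311.KAP.Defs

/-!
# K8: vectors of `F_p^N` with exactly `Z` zero coordinates
-/

open Finset

namespace Pool.Agent.H311.KAP

/-- the vectors whose zero set is exactly `S` -/
noncomputable def vlow_F {p N : ℕ} [NeZero p] (S : Finset (Fin N)) : Finset (Fin N → ZMod p) :=
  Fintype.piFinset (fun i => if i ∈ S then ({0} : Finset (ZMod p)) else univ.erase 0)

lemma vlow_mem {p N : ℕ} [NeZero p] (S : Finset (Fin N)) (c : Fin N → ZMod p)
    (h : c ∈ vlow_F S) : univ.filter (fun i => c i = 0) = S := by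
  unfold vlow_F at h
  rw [Fintype.mem_piFinset] at h
  ext i
  have hi := h i
  by_cases hS : i ∈ S
  · simp [hS] at hi
    simp [hS, hi]
  · simp [hS] at hi
    simp [hS, hi]

lemma vlow_card {p N : ℕ} [NeZero p] (S : Finset (Fin N)) :
    (vlow_F (p := p) S).card = (p - 1) ^ (N - S.card) := by
  unfold vlow_F
  rw [Fintype.card_piFinset]
  have h1 : ∀ i : Fin N, (if i ∈ S then ({0} : Finset (ZMod p)) else univ.erase 0).card
      = if i ∈ S then 1 else (p - 1) := by
    intro i
    by_cases hS : i ∈ S
    · simp [hS]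
    · simp [hS, Finset.card_erase_of_mem, ZMod.card]
  rw [Finset.prod_congr rfl (fun i _ => h1 i), Finset.prod_ite]
  simp only [Finset.prod_const_one, one_mul, Finset.prod_const]
  congr 1
  have h2 : (univ.filter (fun i : Fin N => ¬ i ∈ S)) = Sᶜ := by
    ext i; simp
  rw [h2, Finset.card_compl, Fintype.card_fin]

/-- K8: there are at least `C(N,Z) (p-1)^(N-Z)` vectors with at most `Z` zero coordinates. -/
theorem vlow : S_V := by
  intro p N Z hp
  haveI : NeZero p := ⟨hp.out.ne_zero⟩
  have hdis : ∀ S ∈ powersetCard Z (univ : Finset (Fin N)),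
      ∀ T ∈ powersetCard Z (univ : Finset (Fin N)), S ≠ T →
      Disjoint (vlow_F (p := p) S) (vlow_F (p := p) T) := by
    intro S _ T _ hne
    rw [Finset.disjoint_left]
    intro c hc hc'
    exact hne ((vlow_mem S c hc).symm.trans (vlow_mem T c hc'))
  have hcard : ((powersetCard Z (univ : Finset (Fin N))).biUnion
      (fun S => vlow_F (p := p) S)).card = N.choose Z * (p - 1) ^ (N - Z) := by
    rw [Finset.card_biUnion hdis]
    have h1 : ∀ S ∈ powersetCard Z (univ : Finset (Fin N)),
        (vlow_F (p := p) S).card = (p - 1) ^ (N - Z) := by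
      intro S hS
      rw [vlow_card, (Finset.mem_powersetCard.1 hS).2]
    rw [Finset.sum_congr rfl h1, Finset.sum_const, Finset.card_powersetCard, Finset.card_univ,
      Fintype.card_fin, smul_eq_mul]
  rw [← hcard]
  unfold V
  apply Finset.card_le_card
  intro c hc
  rw [Finset.mem_biUnion] at hc
  obtain ⟨S, hS, hcS⟩ := hc
  rw [Finset.mem_filter]
  refine ⟨Finset.mem_univ _, ?_⟩
  unfold nz
  rw [vlow_mem S c hcS, (Finset.mem_powersetCard.1 hS).2]

end Pool.Agent.H311.KAP
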