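import Pool.Agent.H311.KAP.Final5
import Pool.Agent.H311.KAP.DelLam
import Pool.Agent.H311.KAP.Fib
import Pool.Agent.H311.KAP.Avg
import Pool.Agent.H311.KAP.Chern5
import Pool.Agent.H311.KAP.VReal5
import Pool.Agent.H311.KAP.Num5

namespace Pool.Agent.H311.KAP

theorem main5 (p q : ℕ) [Fact p.Prime] (hq : 1 ≤ q) (h13 : 13 * q ≤ p) :
    (p : ℝ) ^ (1 - 9 / 2 * q / (p : ℝ) ^ 2) ≤ lam (p + 1 - q) p :=
  main5_of del (avg fib1 fib2) vreal5 breal5 num5 lamlb p q hq h13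

end Pool.Agent.H311.KAP
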