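import Pool.Agent.H311.KAP.Defs5

/-!
# One coordinate, the Chernoff bound and its real form, over a finite field, with `1/5`
-/

set_option autoImplicit false

open Finset

namespace Pool.Agent.H311.KAPF

/-- **K5'.** -/
theorem one5 : S_one5 := by
  intro F _ _ _
  have h1 : ∀ ce : F × F,
      (1 / 5 : ℝ) ^ (univ.filter (fun t : F => ce.1 + t * ce.2 = 0)).card ≤
      (if ce.2 = 0 then 4 / 5 else 0) + 1 / 5 := by
    intro ce
    split_ifs with h
    · refine (pow_le_one₀ (by norm_num) (by norm_num)).trans ?_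
      norm_num
    · rw [zero_add]
      refine pow_le_of_le_one (by norm_num) (by norm_num) ?_
      rw [← Nat.pos_iff_ne_zero, Finset.card_pos]
      refine ⟨-ce.1 / ce.2, ?_⟩
      rw [Finset.mem_filter]
      refine ⟨Finset.mem_univ _, ?_⟩
      rw [div_mul_cancel₀ _ h, add_neg_cancel]
  refine (Finset.sum_le_sum fun ce _ => h1 ce).trans ?_
  rw [Finset.sum_add_distrib, Finset.sum_const, Finset.card_univ, Fintype.card_prod,
    nsmul_eq_mul]
  have h2 : ∑ ce : F × F, (if ce.2 = 0 then (4 / 5 : ℝ) else 0) = 4 / 5 * (Fintype.card F : ℝ) := by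
    rw [Fintype.sum_prod_type]
    simp only [Finset.sum_ite_eq', Finset.mem_univ, if_true, Finset.sum_const, Finset.card_univ,
      nsmul_eq_mul]
    ring
  rw [h2]
  push_cast
  apply le_of_eq
  ring

/-- the weight of one coordinate -/
noncomputable def chern5fg (F : Type) [Field F] [Fintype F] [DecidableEq F] (ce : F × F) : ℝ :=
  (1 / 5 : ℝ) ^ (univ.filter (fun t : F => ce.1 + t * ce.2 = 0)).card

theorem chern5fg_nonneg (F : Type) [Field F] [Fintype F] [DecidableEq F] (ce : F × F) :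
    0 ≤ chern5fg F ce := by
  unfold chern5fg; positivity

theorem chern5f_sum (F : Type) [Field F] [Fintype F] [DecidableEq F] (N : ℕ) :
    ∑ ce : (Fin N → F) × (Fin N → F), ∏ i, chern5fg F (ce.1 i, ce.2 i) =
      (∑ ce : F × F, chern5fg F ce) ^ N := by
  rw [Fintype.sum_pow]
  symm
  refine Fintype.sum_equiv (Equiv.arrowProdEquivProdArrow (Fin N) (fun _ => F)
    (fun _ => F)) _ _ fun f => ?_
  rfl

theorem chern5f_count (F : Type) [Field F] [Fintype F] [DecidableEq F] (N : ℕ)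
    (ce : (Fin N → F) × (Fin N → F)) :
    ∑ i, (univ.filter (fun t : F => ce.1 i + t * ce.2 i = 0)).card =
      ∑ t : F, nz (ce.1 + t • ce.2) := by
  unfold nz
  simp only [Finset.card_filter]
  rw [Finset.sum_comm]
  refine Finset.sum_congr rfl fun j _ => Finset.sum_congr rfl fun i _ => ?_
  simp only [Pi.add_apply, Pi.smul_apply, smul_eq_mul]

theorem chern5f_one (F : Type) [Field F] [Fintype F] [DecidableEq F] (N Z : ℕ)
    (ce : (Fin N → F) × (Fin N → F))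
    (h : ∀ t : F, nz (ce.1 + t • ce.2) ≤ Z) :
    1 ≤ (5 : ℝ) ^ (Fintype.card F * Z) * ∏ i, chern5fg F (ce.1 i, ce.2 i) := by
  have e : ∏ i, chern5fg F (ce.1 i, ce.2 i) =
      (1 / 5 : ℝ) ^ (∑ t : F, nz (ce.1 + t • ce.2)) := by
    rw [← chern5f_count, ← Finset.prod_pow_eq_pow_sum]
    rfl
  have h1 : ∑ t : F, nz (ce.1 + t • ce.2) ≤ Fintype.card F * Z := by
    calc ∑ t : F, nz (ce.1 + t • ce.2) ≤ ∑ _t : F, Z :=
          Finset.sum_le_sum fun t _ => h t
      _ = Fintype.card F * Z := by rw [Finset.sum_const, Finset.card_univ, smul_eq_mul]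
  have h2 : (1 / 5 : ℝ) ^ (Fintype.card F * Z) ≤
      (1 / 5 : ℝ) ^ (∑ t : F, nz (ce.1 + t • ce.2)) :=
    pow_le_pow_of_le_one (by norm_num) (by norm_num) h1
  rw [e]
  calc (1 : ℝ) = (5 : ℝ) ^ (Fintype.card F * Z) * (1 / 5 : ℝ) ^ (Fintype.card F * Z) := by
        rw [← mul_pow]; norm_num
    _ ≤ _ := mul_le_mul_of_nonneg_left h2 (by positivity)

/-- **K6'.** -/
theorem chern5 : S_chern5 := by
  intro F _ _ _ N Z
  have h1 := one5 F
  have h0 : (0 : ℝ) ≤ ∑ ce : F × F, chern5fg F ce :=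
    Finset.sum_nonneg fun ce _ => chern5fg_nonneg F ce
  have h2 : (∑ ce : F × F, chern5fg F ce) ^ N ≤
      ((Fintype.card F : ℝ) ^ 2 / 5 + 4 / 5 * (Fintype.card F : ℝ)) ^ N := pow_le_pow_left₀ h0 h1 N
  rw [← chern5f_sum] at h2
  calc (B F N Z : ℝ) = ∑ _ce ∈ univ.filter
        (fun ce : (Fin N → F) × (Fin N → F) => ∀ t : F, nz (ce.1 + t • ce.2) ≤ Z), (1 : ℝ) := by
        rw [Finset.sum_const, nsmul_eq_mul, mul_one]
        rfl
    _ ≤ ∑ ce ∈ univ.filter
        (fun ce : (Fin N → F) × (Fin N → F) => ∀ t : F, nz (ce.1 + t • ce.2) ≤ Z),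
        (5 : ℝ) ^ (Fintype.card F * Z) * ∏ i, chern5fg F (ce.1 i, ce.2 i) :=
        Finset.sum_le_sum fun ce hce => chern5f_one F N Z ce (Finset.mem_filter.1 hce).2
    _ ≤ ∑ ce : (Fin N → F) × (Fin N → F),
        (5 : ℝ) ^ (Fintype.card F * Z) * ∏ i, chern5fg F (ce.1 i, ce.2 i) :=
        Finset.sum_le_univ_sum_of_nonneg fun ce =>
          mul_nonneg (by positivity) (Finset.prod_nonneg fun i _ => chern5fg_nonneg F _)
    _ = (5 : ℝ) ^ (Fintype.card F * Z) * ∑ ce : (Fin N → F) × (Fin N → F),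
        ∏ i, chern5fg F (ce.1 i, ce.2 i) := by rw [Finset.mul_sum]
    _ ≤ 5 ^ (Fintype.card F * Z) *
        ((Fintype.card F : ℝ) ^ 2 / 5 + 4 / 5 * (Fintype.card F : ℝ)) ^ N :=
        mul_le_mul_of_nonneg_left h2 (by positivity)

/-- **K10'.** -/
theorem breal5 : S_Breal5 := by
  intro F _ _ _ M h8
  obtain ⟨p, hpF⟩ : ∃ p, p = Fintype.card F := ⟨_, rfl⟩
  have hb := chern5 F ((Fintype.card F) ^ 2 * M) ((Fintype.card F - 5) * M)
  rw [← hpF] at h8 hb ⊢
  have hp : 0 < p := by omega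
  have hp0 : (0 : ℝ) < p := by exact_mod_cast hp
  obtain ⟨N, hN⟩ : ∃ N, N = p ^ 2 * M := ⟨_, rfl⟩
  obtain ⟨Z, hZ⟩ : ∃ Z, Z = (p - 5) * M := ⟨_, rfl⟩
  rw [← hN, ← hZ] at hb ⊢
  have hpZ : p * Z + 5 * p * M = N := by
    rw [hZ, hN]
    obtain ⟨s, hs⟩ : ∃ s, p = 5 + s := ⟨p - 5, by omega⟩
    have e : p - 5 = s := by omega
    rw [e]
    calc p * (s * M) + 5 * p * M = p * (5 + s) * M := by ring
      _ = p ^ 2 * M := by rw [← hs]; ring
  have e1 : (p : ℝ) ^ 2 / 5 + 4 / 5 * (p : ℝ) = (p : ℝ) ^ 2 * (1 / 5) * (1 + 4 / p) := by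
    field_simp
  have h2 : (1 + 4 / (p : ℝ)) ^ N ≤ Real.exp (4 * p * M) := by
    have h3 : 1 + 4 / (p : ℝ) ≤ Real.exp (4 / p) := by
      have := Real.add_one_le_exp (4 / (p : ℝ))
      linarith
    refine (pow_le_pow_left₀ (by positivity) h3 N).trans (le_of_eq ?_)
    rw [← Real.exp_nat_mul, hN]
    congr 1
    push_cast
    field_simp
  have h4 : (5 : ℝ) ^ (p * Z) * (1 / 5) ^ N = Real.exp (-(5 * p * M * Real.log 5)) := by
    have e2 : (5 : ℝ) ^ (5 * p * M) = Real.exp (5 * p * M * Real.log 5) := by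
      rw [← Real.rpow_natCast, Real.rpow_def_of_pos (by norm_num), mul_comm]
      push_cast
      rfl
    rw [← hpZ, pow_add, ← mul_assoc, ← mul_pow, Real.exp_neg, ← e2,
      show (5 : ℝ) * (1 / 5) = 1 by norm_num, one_pow, one_mul, one_div, inv_pow]
  have hP : (0 : ℝ) < (p : ℝ) ^ (2 * N) := by positivity
  rw [div_le_iff₀ hP]
  calc (B F N Z : ℝ) ≤ 5 ^ (p * Z) * ((p : ℝ) ^ 2 / 5 + 4 / 5 * (p : ℝ)) ^ N := hb
    _ = (5 ^ (p * Z) * (1 / 5) ^ N) * (1 + 4 / p) ^ N * (p : ℝ) ^ (2 * N) := by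
        rw [e1, mul_pow, mul_pow, ← pow_mul]
        ring
    _ ≤ (5 ^ (p * Z) * (1 / 5) ^ N) * Real.exp (4 * p * M) * (p : ℝ) ^ (2 * N) := by
        gcongr
    _ = Real.exp (-((p : ℝ) * M * (5 * Real.log 5 - 4))) * (p : ℝ) ^ (2 * N) := by
        rw [h4, ← Real.exp_add]
        congr 2
        ring

end Pool.Agent.H311.KAPF
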