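import Pool.Agent.H311.KAP.DefsF

/-!
# K1, K2 and K3 over a finite field: deletion and fibres of affine functionals
-/

set_option autoImplicit false

open Finset

namespace Pool.Agent.H311.KAPF

theorem del : S_del := by
  intro F _ _ _ m D
  set G : Finset ((Fin m → F) × (Fin m → F)) :=
    univ.filter (fun xd : (Fin m → F) × (Fin m → F) =>
      xd.2 ≠ 0 ∧ ∀ t : F, xd.1 + t • xd.2 ∈ D) with hG
  refine ⟨D \ G.image Prod.fst, sdiff_subset, ?_, ?_⟩
  · intro x y h
    by_contra hy
    have h0 := h 0
    rw [zero_smul, add_zero, mem_sdiff] at h0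
    apply h0.2
    rw [mem_image]
    refine ⟨(x, y), ?_, rfl⟩
    rw [hG, mem_filter]
    exact ⟨mem_univ _, hy, fun t => (mem_sdiff.1 (h t)).1⟩
  · have h1 : D.card ≤ (D \ G.image Prod.fst).card + (G.image Prod.fst).card :=
      card_le_card_sdiff_add_card
    have h2 : (G.image Prod.fst).card ≤ G.card := card_image_le
    have h3 : G.card = bad D := rfl
    omega

theorem fib1 : S_fib1 := by
  intro F _ _ _ m x c
  have e : (univ.filter (fun f : (Fin m → F) × F => ∑ i, f.1 i * x i + f.2 = c)) =
      univ.image (fun u : Fin m → F => (u, c - ∑ i, u i * x i)) := by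
    ext ⟨u, b⟩
    simp only [mem_filter, mem_univ, true_and, mem_image, Prod.mk.injEq]
    constructor
    · intro h
      exact ⟨u, rfl, by rw [← h]; ring⟩
    · rintro ⟨u', rfl, rfl⟩
      ring
  rw [e, card_image_of_injective _ (fun a b h => (Prod.mk.inj h).1), card_univ, Fintype.card_fun,
    Fintype.card_fin]

/-- the fibres of a nonzero linear functional have the same size -/
lemma fib_shift {F : Type} [Field F] [Fintype F] [DecidableEq F] {m : ℕ} (d : Fin m → F)
    (i0 : Fin m) (hd : d i0 ≠ 0) (e e' : F) :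
    (univ.filter (fun u : Fin m → F => ∑ i, u i * d i = e)).card ≤
      (univ.filter (fun u : Fin m → F => ∑ i, u i * d i = e')).card := by
  apply Finset.card_le_card_of_injOn (fun u => u + Pi.single i0 ((e' - e) / d i0))
  · intro u hu
    have hu' : ∑ i, u i * d i = e := (mem_filter.1 (Finset.mem_coe.1 hu)).2
    refine Finset.mem_coe.2 (mem_filter.2 ⟨mem_univ _, ?_⟩)
    have h1 : ∑ i, (u + Pi.single i0 ((e' - e) / d i0) : Fin m → F) i * d i =
        ∑ i, u i * d i + (e' - e) / d i0 * d i0 := by
      simp only [Pi.add_apply, add_mul, Finset.sum_add_distrib]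
      congr 1
      rw [Finset.sum_eq_single i0]
      · rw [Pi.single_eq_same]
      · intro b _ hb
        rw [Pi.single_eq_of_ne hb, zero_mul]
      · intro h
        exact absurd (mem_univ _) h
    rw [h1, hu', div_mul_cancel₀ _ hd]
    ring
  · intro a _ b _ h
    exact add_right_cancel h

/-- the size of the fibres of a nonzero linear functional -/
lemma fib_lin {F : Type} [Field F] [Fintype F] [DecidableEq F] {m : ℕ} (d : Fin m → F)
    (hd : d ≠ 0) (e : F) :
    (univ.filter (fun u : Fin m → F => ∑ i, u i * d i = e)).card * Fintype.card F =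
      (Fintype.card F) ^ m := by
  obtain ⟨i0, hi0⟩ : ∃ i, d i ≠ 0 := by
    by_contra h
    push Not at h
    exact hd (funext h)
  have h1 : (univ : Finset (Fin m → F)).card =
      ∑ e' ∈ (univ : Finset F),
        (univ.filter (fun u : Fin m → F => ∑ i, u i * d i = e')).card :=
    Finset.card_eq_sum_card_fiberwise fun _ _ => Finset.mem_coe.2 (mem_univ _)
  rw [card_univ, Fintype.card_fun, Fintype.card_fin] at h1
  rw [h1, Finset.sum_congr rfl fun e' _ => le_antisymm (fib_shift d i0 hi0 e' e)
    (fib_shift d i0 hi0 e e'), Finset.sum_const, card_univ, smul_eq_mul, mul_comm]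

theorem fib2 : S_fib2 := by
  intro F _ _ _ m x d c e hd
  have h1 : (univ.filter (fun f : (Fin m → F) × F =>
      ∑ i, f.1 i * x i + f.2 = c ∧ ∑ i, f.1 i * d i = e)) =
      (univ.filter (fun u : Fin m → F => ∑ i, u i * d i = e)).image
        (fun u : Fin m → F => (u, c - ∑ i, u i * x i)) := by
    ext ⟨u, b⟩
    simp only [mem_filter, mem_univ, true_and, mem_image, Prod.mk.injEq]
    constructor
    · rintro ⟨h, h'⟩
      exact ⟨u, h', rfl, by rw [← h]; ring⟩
    · rintro ⟨u', h', rfl, rfl⟩
      exact ⟨by ring, h'⟩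
  rw [h1, card_image_of_injective _ (fun a b h => (Prod.mk.inj h).1)]
  exact fib_lin d hd e

end Pool.Agent.H311.KAPF
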