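import Pool.Agent.H311.KAP.DefsF
import Pool.Agent.H311.KAP.Ent

/-!
# K8 and K9 over a finite field: the main term (adapted by helper977 from VLow, VReal)
-/

open Finset

namespace Pool.Agent.H311.KAPF

/-- the vectors whose zero set is exactly `S` -/
noncomputable def vlow_F {F : Type} [Field F] [Fintype F] [DecidableEq F] {N : ℕ} (S : Finset (Fin N)) : Finset (Fin N → F) :=
  Fintype.piFinset (fun i => if i ∈ S then ({0} : Finset (F)) else univ.erase 0)

lemma vlow_mem {F : Type} [Field F] [Fintype F] [DecidableEq F] {N : ℕ} (S : Finset (Fin N)) (c : Fin N → F)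
    (h : c ∈ vlow_F S) : univ.filter (fun i => c i = 0) = S := by
  unfold vlow_F at h
  rw [Fintype.mem_piFinset] at h
  ext i
  have hi := h i
  by_cases hS : i ∈ S
  · simp [hS] at hi
    simp [hS, hi]
  · simp [hS] at hi
    simp [hS, hi]

lemma vlow_card {F : Type} [Field F] [Fintype F] [DecidableEq F] {N : ℕ} (S : Finset (Fin N)) :
    (vlow_F (F := F) S).card = (Fintype.card F - 1) ^ (N - S.card) := by
  unfold vlow_F
  rw [Fintype.card_piFinset]
  have h1 : ∀ i : Fin N, (if i ∈ S then ({0} : Finset (F)) else univ.erase 0).card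
      = if i ∈ S then 1 else (Fintype.card F - 1) := by
    intro i
    by_cases hS : i ∈ S
    · simp [hS]
    · simp [hS, Finset.card_erase_of_mem, Finset.card_univ]
  rw [Finset.prod_congr rfl (fun i _ => h1 i), Finset.prod_ite]
  simp only [Finset.prod_const_one, one_mul, Finset.prod_const]
  congr 1
  have h2 : (univ.filter (fun i : Fin N => ¬ i ∈ S)) = Sᶜ := by
    ext i; simp
  rw [h2, Finset.card_compl, Fintype.card_fin]

/-- K8: there are at least `C(N,Z) (p-1)^(N-Z)` vectors with at most `Z` zero coordinates. -/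
theorem vlow : S_V := by
  intro F _ _ _ N Z
  have hdis : ∀ S ∈ powersetCard Z (univ : Finset (Fin N)),
      ∀ T ∈ powersetCard Z (univ : Finset (Fin N)), S ≠ T →
      Disjoint (vlow_F (F := F) S) (vlow_F (F := F) T) := by
    intro S _ T _ hne
    rw [Finset.disjoint_left]
    intro c hc hc'
    exact hne ((vlow_mem S c hc).symm.trans (vlow_mem T c hc'))
  have hcard : ((powersetCard Z (univ : Finset (Fin N))).biUnion
      (fun S => vlow_F (F := F) S)).card = N.choose Z * (Fintype.card F - 1) ^ (N - Z) := by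
    rw [Finset.card_biUnion hdis]
    have h1 : ∀ S ∈ powersetCard Z (univ : Finset (Fin N)),
        (vlow_F (F := F) S).card = (Fintype.card F - 1) ^ (N - Z) := by
      intro S hS
      rw [vlow_card, (Finset.mem_powersetCard.1 hS).2]
    rw [Finset.sum_congr rfl h1, Finset.sum_const, Finset.card_powersetCard, Finset.card_univ,
      Fintype.card_fin, smul_eq_mul]
  rw [← hcard]
  unfold V
  apply Finset.card_le_card
  intro c hc
  rw [Finset.mem_biUnion] at hc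
  obtain ⟨S, hS, hcS⟩ := hc
  rw [Finset.mem_filter]
  refine ⟨Finset.mem_univ _, ?_⟩
  unfold nz
  rw [vlow_mem S c hcS, (Finset.mem_powersetCard.1 hS).2]

theorem vreal_keyF (P m Q N Z T : ℝ) (n z t : ℕ) (hP : 1 < P) (hm : 0 < m) (hN : N = P ^ 2 * m)
    (hZ : Z = (P - 8 * Q) * m) (hT : T = N - Z) (hZ0 : 0 ≤ Z) (hT0 : 0 ≤ T) (hz : (z : ℝ) = Z)
    (ht : (t : ℝ) = T) (hn : n = z + t) :
    Z ^ z * T ^ t * P ^ n ≤ Real.exp (64 * Q ^ 2 * m / (P - 1)) * (N ^ n * (P - 1) ^ t) := by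
  have hP0 : 0 < P := by linarith
  have hP1 : 0 < P - 1 := by linarith
  have hN0 : 0 < N := by rw [hN]; positivity
  have hx0 : 0 ≤ P * Z / N := by positivity
  have hy0 : 0 ≤ P * T / ((P - 1) * N) := by positivity
  have hx : P * Z / N ≤ Real.exp (P * Z / N - 1) := by
    linarith [Real.add_one_le_exp (P * Z / N - 1)]
  have hy : P * T / ((P - 1) * N) ≤ Real.exp (P * T / ((P - 1) * N) - 1) := by
    linarith [Real.add_one_le_exp (P * T / ((P - 1) * N) - 1)]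
  have h1 : (P * Z / N) ^ z ≤ Real.exp (z * (P * Z / N - 1)) := by
    rw [Real.exp_nat_mul]
    exact pow_le_pow_left₀ hx0 hx z
  have h2 : (P * T / ((P - 1) * N)) ^ t ≤ Real.exp (t * (P * T / ((P - 1) * N) - 1)) := by
    rw [Real.exp_nat_mul]
    exact pow_le_pow_left₀ hy0 hy t
  have h3 : (P * Z / N) ^ z * (P * T / ((P - 1) * N)) ^ t ≤
      Real.exp (64 * Q ^ 2 * m / (P - 1)) := by
    refine (mul_le_mul h1 h2 (pow_nonneg hy0 t) (Real.exp_pos _).le).trans (le_of_eq ?_)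
    rw [← Real.exp_add]
    congr 1
    rw [hz, ht, hT, hZ, hN]
    field_simp
    ring
  have h4 : Z ^ z * T ^ t * P ^ n =
      ((P * Z / N) ^ z * (P * T / ((P - 1) * N)) ^ t) * (N ^ n * (P - 1) ^ t) := by
    rw [hn, pow_add, pow_add, div_pow, div_pow, mul_pow, mul_pow, mul_pow]
    field_simp
  rw [h4]
  exact mul_le_mul_of_nonneg_right h3 (by positivity)

theorem vreal : S_Vreal := by
  intro F _ _ _ M hq hM
  have h7 : Pool.Agent.H311.KAP.S_ent := Pool.Agent.H311.KAP.ent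
  have e8 := vlow F ((Fintype.card F) ^ 2 * M) ((Fintype.card F - 8) * M)
  generalize hVd : V F ((Fintype.card F) ^ 2 * M) ((Fintype.card F - 8) * M) = v at *
  generalize hpd : Fintype.card F = p at *
  have hp2 : 2 ≤ p := by omega
  have hZN : (p - 8) * M ≤ p ^ 2 * M := by
    refine Nat.mul_le_mul_right M ((Nat.sub_le p 8).trans ?_)
    nlinarith
  obtain ⟨T, hT⟩ : ∃ T, p ^ 2 * M = (p - 8) * M + T := ⟨_, (Nat.add_sub_of_le hZN).symm⟩
  have e7 := h7 (p ^ 2 * M) ((p - 8) * M) hZN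
  have hTs : p ^ 2 * M - (p - 8) * M = T := by omega
  rw [hTs] at e7 e8
  have hMr : (1 : ℝ) ≤ M := by exact_mod_cast hM
  have hpr : (2 : ℝ) ≤ p := by exact_mod_cast hp2
  have hZr : (((p - 8) * M : ℕ) : ℝ) = ((p : ℝ) - 8 * 1) * M := by
    rw [Nat.cast_mul, Nat.cast_sub hq]; norm_num
  have hNr : ((p ^ 2 * M : ℕ) : ℝ) = (p : ℝ) ^ 2 * M := by push_cast; ring
  have hTr : (T : ℝ) = ((p ^ 2 * M : ℕ) : ℝ) - (((p - 8) * M : ℕ) : ℝ) := by
    rw [hT]; push_cast; ring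
  have key := vreal_keyF (p : ℝ) M 1 ((p ^ 2 * M : ℕ) : ℝ) (((p - 8) * M : ℕ) : ℝ) (T : ℝ)
    (p ^ 2 * M) ((p - 8) * M) T (by linarith) (by linarith) hNr hZr hTr (Nat.cast_nonneg _)
    (Nat.cast_nonneg _) rfl rfl hT
  rw [one_pow, mul_one] at key
  have e7r : (((p ^ 2 * M : ℕ) : ℝ)) ^ (p ^ 2 * M) ≤ (((p ^ 2 * M : ℕ) : ℝ) + 1) *
      (((p ^ 2 * M).choose ((p - 8) * M) : ℝ) *
        ((((p - 8) * M : ℕ) : ℝ) ^ ((p - 8) * M)) * (T : ℝ) ^ T) := by
    exact_mod_cast e7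
  have e8r : ((p ^ 2 * M).choose ((p - 8) * M) : ℝ) * ((p : ℝ) - 1) ^ T ≤
      (v : ℝ) := by
    have h1 : ((p - 1 : ℕ) : ℝ) = (p : ℝ) - 1 := by
      rw [Nat.cast_sub (by omega), Nat.cast_one]
    rw [← h1]
    exact_mod_cast e8
  generalize hNd : ((p ^ 2 * M : ℕ) : ℝ) = Nr at *
  generalize hZd : (((p - 8) * M : ℕ) : ℝ) = Zr at *
  generalize hCd : ((p ^ 2 * M).choose ((p - 8) * M) : ℝ) = Cr at *
  have hX : 0 < Zr ^ ((p - 8) * M) * (T : ℝ) ^ T := by
    have a1 : 0 < Zr ^ ((p - 8) * M) := by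
      rw [← hZd]
      rcases Nat.eq_zero_or_pos ((p - 8) * M) with h | h
      · rw [h, pow_zero]; exact one_pos
      · exact pow_pos (by exact_mod_cast h) _
    have a2 : 0 < (T : ℝ) ^ T := by
      rcases Nat.eq_zero_or_pos T with h | h
      · rw [h, pow_zero]; exact one_pos
      · exact pow_pos (by exact_mod_cast h) _
    exact mul_pos a1 a2
  have hNr0 : 0 ≤ Nr := by rw [hNr]; positivity
  have hPN : 0 < (p : ℝ) ^ (p ^ 2 * M) := by positivity
  have hE : Real.exp (-(64 * (M : ℝ) / ((p : ℝ) - 1))) *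
      Real.exp (64 * (M : ℝ) / ((p : ℝ) - 1)) = 1 := by
    rw [← Real.exp_add, neg_add_cancel, Real.exp_zero]
  rw [← hNr, div_le_div_iff₀ (by linarith) hPN]
  have hP1 : 0 ≤ ((p : ℝ) - 1) ^ T := pow_nonneg (by linarith) T
  refine le_of_mul_le_mul_right ?_ hX
  calc Real.exp (-(64 * (M : ℝ) / ((p : ℝ) - 1))) * (p : ℝ) ^ (p ^ 2 * M) *
        (Zr ^ ((p - 8) * M) * (T : ℝ) ^ T)
      = Real.exp (-(64 * (M : ℝ) / ((p : ℝ) - 1))) *
        (Zr ^ ((p - 8) * M) * (T : ℝ) ^ T * (p : ℝ) ^ (p ^ 2 * M)) := by ring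
    _ ≤ Real.exp (-(64 * (M : ℝ) / ((p : ℝ) - 1))) *
        (Real.exp (64 * (M : ℝ) / ((p : ℝ) - 1)) *
          (Nr ^ (p ^ 2 * M) * ((p : ℝ) - 1) ^ T)) :=
        mul_le_mul_of_nonneg_left key (Real.exp_pos _).le
    _ = Nr ^ (p ^ 2 * M) * ((p : ℝ) - 1) ^ T := by rw [← mul_assoc, hE, one_mul]
    _ ≤ ((Nr + 1) * (Cr * Zr ^ ((p - 8) * M) * (T : ℝ) ^ T)) * ((p : ℝ) - 1) ^ T :=
        mul_le_mul_of_nonneg_right e7r hP1
    _ = (Cr * ((p : ℝ) - 1) ^ T) * ((Nr + 1) * (Zr ^ ((p - 8) * M) * (T : ℝ) ^ T)) := by ring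
    _ ≤ (v : ℝ) * ((Nr + 1) * (Zr ^ ((p - 8) * M) * (T : ℝ) ^ T)) :=
        mul_le_mul_of_nonneg_right e8r (mul_nonneg (by linarith) hX.le)
    _ = (v : ℝ) * (Nr + 1) * (Zr ^ ((p - 8) * M) * (T : ℝ) ^ T) := by ring

end Pool.Agent.H311.KAPF
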