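import Pool.Agent.H311.KAP.Defs5
import Pool.Agent.H311.KAP.VRealF

/-!
# K9' over a finite field: the main term with the function `G` (by helper195, adapted from VRealF)
-/

open Finset

namespace Pool.Agent.H311.KAPF

open Pool.Agent.H311.KAP (G)

theorem vreal5f_key (P m N Z T : ℝ) (n z t : ℕ) (hP : 5 < P) (hm : 0 < m) (hN : N = P ^ 2 * m)
    (hZ : Z = (P - 5) * m) (hT : T = N - Z) (hT0 : 0 ≤ T) (hz : (z : ℝ) = Z)
    (ht : (t : ℝ) = T) (hn : n = z + t) :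
    Z ^ z * T ^ t * P ^ n ≤
      Real.exp (P * m * (G (5 / P) + (5 / P) ^ 2 / (P - 1))) * (N ^ n * (P - 1) ^ t) := by
  have hP0 : 0 < P := by linarith
  have hP1 : 0 < P - 1 := by linarith
  have hP5 : 0 < P - 5 := by linarith
  have hN0 : 0 < N := by rw [hN]; positivity
  have hZ0 : 0 < Z := by rw [hZ]; positivity
  have hx0 : 0 < P * Z / N := by positivity
  have hxe : P * Z / N = 1 - 5 / P := by
    rw [hZ, hN]
    field_simp
  have hy0 : 0 ≤ P * T / ((P - 1) * N) := by positivity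
  have hy : P * T / ((P - 1) * N) ≤ Real.exp (P * T / ((P - 1) * N) - 1) := by
    linarith [Real.add_one_le_exp (P * T / ((P - 1) * N) - 1)]
  have h1 : (P * Z / N) ^ z = Real.exp (z * Real.log (1 - 5 / P)) := by
    rw [Real.exp_nat_mul, ← hxe, Real.exp_log hx0]
  have h2 : (P * T / ((P - 1) * N)) ^ t ≤ Real.exp (t * (P * T / ((P - 1) * N) - 1)) := by
    rw [Real.exp_nat_mul]
    exact pow_le_pow_left₀ hy0 hy t
  have h3 : (P * Z / N) ^ z * (P * T / ((P - 1) * N)) ^ t ≤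
      Real.exp (P * m * (G (5 / P) + (5 / P) ^ 2 / (P - 1))) := by
    rw [h1]
    refine (mul_le_mul_of_nonneg_left h2 (Real.exp_pos _).le).trans (le_of_eq ?_)
    rw [← Real.exp_add]
    congr 1
    unfold G
    generalize Real.log (1 - 5 / P) = l
    rw [hz, ht, hT, hZ, hN]
    field_simp
    ring
  have h4 : Z ^ z * T ^ t * P ^ n =
      ((P * Z / N) ^ z * (P * T / ((P - 1) * N)) ^ t) * (N ^ n * (P - 1) ^ t) := by
    rw [hn, pow_add, pow_add, div_pow, div_pow, mul_pow, mul_pow, mul_pow]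
    field_simp
  rw [h4]
  exact mul_le_mul_of_nonneg_right h3 (by positivity)

theorem vreal5 : S_Vreal5 := by
  intro F _ _ _ M hq hM
  have h7 : Pool.Agent.H311.KAP.S_ent := Pool.Agent.H311.KAP.ent
  have e8 := vlow F ((Fintype.card F) ^ 2 * M) ((Fintype.card F - 5) * M)
  generalize hVd : V F ((Fintype.card F) ^ 2 * M) ((Fintype.card F - 5) * M) = v at *
  generalize hpd : Fintype.card F = p at *
  have hp2 : 2 ≤ p := by omega
  have hZN : (p - 5) * M ≤ p ^ 2 * M := by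
    refine Nat.mul_le_mul_right M ((Nat.sub_le p 5).trans ?_)
    nlinarith
  obtain ⟨T, hT⟩ : ∃ T, p ^ 2 * M = (p - 5) * M + T := ⟨_, (Nat.add_sub_of_le hZN).symm⟩
  have e7 := h7 (p ^ 2 * M) ((p - 5) * M) hZN
  have hTs : p ^ 2 * M - (p - 5) * M = T := by omega
  rw [hTs] at e7 e8
  have hMr : (1 : ℝ) ≤ M := by exact_mod_cast hM
  have hpr : (5 : ℝ) < p := by exact_mod_cast hq
  have hZr : (((p - 5) * M : ℕ) : ℝ) = ((p : ℝ) - 5) * M := by
    rw [Nat.cast_mul, Nat.cast_sub hq.le]; norm_num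
  have hNr : ((p ^ 2 * M : ℕ) : ℝ) = (p : ℝ) ^ 2 * M := by push_cast; ring
  have hTr : (T : ℝ) = ((p ^ 2 * M : ℕ) : ℝ) - (((p - 5) * M : ℕ) : ℝ) := by
    rw [hT]; push_cast; ring
  have key := vreal5f_key (p : ℝ) M ((p ^ 2 * M : ℕ) : ℝ) (((p - 5) * M : ℕ) : ℝ) (T : ℝ)
    (p ^ 2 * M) ((p - 5) * M) T hpr (by linarith) hNr hZr hTr
    (Nat.cast_nonneg _) rfl rfl hT
  have e7r : (((p ^ 2 * M : ℕ) : ℝ)) ^ (p ^ 2 * M) ≤ (((p ^ 2 * M : ℕ) : ℝ) + 1) *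
      (((p ^ 2 * M).choose ((p - 5) * M) : ℝ) *
        ((((p - 5) * M : ℕ) : ℝ) ^ ((p - 5) * M)) * (T : ℝ) ^ T) := by
    exact_mod_cast e7
  have e8r : ((p ^ 2 * M).choose ((p - 5) * M) : ℝ) * ((p : ℝ) - 1) ^ T ≤
      (v : ℝ) := by
    have h1 : ((p - 1 : ℕ) : ℝ) = (p : ℝ) - 1 := by
      rw [Nat.cast_sub (by omega), Nat.cast_one]
    rw [← h1]
    exact_mod_cast e8
  generalize hEd : (p : ℝ) * M * (G (5 / (p : ℝ)) + (5 / (p : ℝ)) ^ 2 / ((p : ℝ) - 1)) = Er at *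
  generalize hNd : ((p ^ 2 * M : ℕ) : ℝ) = Nr at *
  generalize hZd : (((p - 5) * M : ℕ) : ℝ) = Zr at *
  generalize hCd : ((p ^ 2 * M).choose ((p - 5) * M) : ℝ) = Cr at *
  have hX : 0 < Zr ^ ((p - 5) * M) * (T : ℝ) ^ T := by
    have a1 : 0 < Zr ^ ((p - 5) * M) := by
      rw [← hZd]
      rcases Nat.eq_zero_or_pos ((p - 5) * M) with h | h
      · rw [h, pow_zero]; exact one_pos
      · exact pow_pos (by exact_mod_cast h) _
    have a2 : 0 < (T : ℝ) ^ T := by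
      rcases Nat.eq_zero_or_pos T with h | h
      · rw [h, pow_zero]; exact one_pos
      · exact pow_pos (by exact_mod_cast h) _
    exact mul_pos a1 a2
  have hNr0 : 0 ≤ Nr := by rw [hNr]; positivity
  have hPN : 0 < (p : ℝ) ^ (p ^ 2 * M) := by positivity
  have hE : Real.exp (-Er) * Real.exp Er = 1 := by
    rw [← Real.exp_add, neg_add_cancel, Real.exp_zero]
  rw [← hNr, div_le_div_iff₀ (by linarith) hPN]
  have hP1 : 0 ≤ ((p : ℝ) - 1) ^ T := pow_nonneg (by linarith) T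
  refine le_of_mul_le_mul_right ?_ hX
  calc Real.exp (-Er) * (p : ℝ) ^ (p ^ 2 * M) * (Zr ^ ((p - 5) * M) * (T : ℝ) ^ T)
      = Real.exp (-Er) * (Zr ^ ((p - 5) * M) * (T : ℝ) ^ T * (p : ℝ) ^ (p ^ 2 * M)) := by ring
    _ ≤ Real.exp (-Er) * (Real.exp Er * (Nr ^ (p ^ 2 * M) * ((p : ℝ) - 1) ^ T)) :=
        mul_le_mul_of_nonneg_left key (Real.exp_pos _).le
    _ = Nr ^ (p ^ 2 * M) * ((p : ℝ) - 1) ^ T := by rw [← mul_assoc, hE, one_mul]
    _ ≤ ((Nr + 1) * (Cr * Zr ^ ((p - 5) * M) * (T : ℝ) ^ T)) * ((p : ℝ) - 1) ^ T :=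
        mul_le_mul_of_nonneg_right e7r hP1
    _ = (Cr * ((p : ℝ) - 1) ^ T) * ((Nr + 1) * (Zr ^ ((p - 5) * M) * (T : ℝ) ^ T)) := by ring
    _ ≤ (v : ℝ) * ((Nr + 1) * (Zr ^ ((p - 5) * M) * (T : ℝ) ^ T)) :=
        mul_le_mul_of_nonneg_right e8r (mul_nonneg (by linarith) hX.le)
    _ = (v : ℝ) * (Nr + 1) * (Zr ^ ((p - 5) * M) * (T : ℝ) ^ T) := by ring

end Pool.Agent.H311.KAPF
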