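import Pool.Agent.H311.KAP.Final5
import Pool.Agent.H311.KAP.DelFibF
import Pool.Agent.H311.KAP.AvgF
import Pool.Agent.H311.KAP.Chern5F
import Pool.Agent.H311.KAP.VReal5F
import Pool.Agent.H311.KAP.Num5

namespace Pool.Agent.H311.KAPF

theorem main5 (F : Type) [Field F] [Fintype F] [DecidableEq F] (h13 : 13 ≤ Fintype.card F) :
    ∃ n₀ : ℕ, ∀ n : ℕ, n₀ ≤ n → ∃ A : Finset (Fin n → F), LineFree A ∧
      ((Fintype.card F : ℝ) ^ (1 - 9 / 2 / (Fintype.card F : ℝ) ^ 2)) ^ n ≤ (A.card : ℝ) :=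
  main5_of del (avg fib1 fib2) vreal5 breal5 KAP.num5 F h13

end Pool.Agent.H311.KAPF
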