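import Mathlib

/-!
# Large sets without k-term progressions in F_p^n, k close to p

Statements (as Props) of the steps; see the doc comments for the proofs.
-/

open Finset

namespace Pool.Agent.H311.KAP

/-- `APFree k A`: the set `A` contains no nontrivial `k`-term progression
`x, x + y, ..., x + (k-1) y` (`y ≠ 0`). -/
def APFree (k : ℕ) {p n : ℕ} (A : Finset (Fin n → ZMod p)) : Prop :=
  ∀ x y : Fin n → ZMod p, (∀ j : ℕ, j < k → x + (j : ZMod p) • y ∈ A) → y = 0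

/-- `r k p n` is `r_k(F_p^n)`: the largest size of a set in `F_p^n` without nontrivial `k`-term
progression. -/
noncomputable def r (k p n : ℕ) : ℕ :=
  sSup {c : ℕ | ∃ A : Finset (Fin n → ZMod p), APFree k A ∧ A.card = c}

/-- `lam k p` is `λ_{k,p} = sup_{n ≥ 1} r_k(F_p^n)^{1/n}`. -/
noncomputable def lam (k p : ℕ) : ℝ :=
  ⨆ n : ℕ, (r k p (n + 1) : ℝ) ^ (1 / ((n : ℝ) + 1))

/-- number of zero coordinates of `c` -/
def nz {p N : ℕ} (c : Fin N → ZMod p) : ℕ := (univ.filter (fun i => c i = 0)).card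

/-- number of vectors of `F_p^N` with at most `Z` zero coordinates -/
noncomputable def V (p N Z : ℕ) [NeZero p] : ℕ :=
  (univ.filter (fun c : Fin N → ZMod p => nz c ≤ Z)).card

/-- number of pairs `(c,e)` in `(F_p^N)^2` for which `c + j e` has at most `Z` zero coordinates
for every `j < k` -/
noncomputable def B (p N Z k : ℕ) [NeZero p] : ℕ :=
  (univ.filter (fun ce : (Fin N → ZMod p) × (Fin N → ZMod p) =>
    ∀ j : ℕ, j < k → nz (ce.1 + (j : ZMod p) • ce.2) ≤ Z)).card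

/-- number of nontrivial `k`-term progressions in `D` -/
noncomputable def bad (k : ℕ) {p m : ℕ} [NeZero p] (D : Finset (Fin m → ZMod p)) : ℕ :=
  (univ.filter (fun xd : (Fin m → ZMod p) × (Fin m → ZMod p) =>
    xd.2 ≠ 0 ∧ ∀ j : ℕ, j < k → xd.1 + (j : ZMod p) • xd.2 ∈ D)).card

/-- K1 deletion. Remove from `D` the first point of each progression: `A = D \ image fst bad`.
A progression with `y ≠ 0` in `A` lies in `D`, so its first point `x = x + 0 y` was removed. -/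
def S_del : Prop := ∀ (p m k : ℕ) [Fact p.Prime], 1 ≤ k → ∀ D : Finset (Fin m → ZMod p),
  ∃ A : Finset (Fin m → ZMod p), A ⊆ D ∧ APFree k A ∧ D.card ≤ A.card + bad k D

/-- K2 fibres of one random affine functional at a point. For each `u` there is exactly one `b`. -/
def S_fib1 : Prop := ∀ (p m : ℕ) [Fact p.Prime] (x : Fin m → ZMod p) (c : ZMod p),
  (univ.filter (fun f : (Fin m → ZMod p) × ZMod p => ∑ i, f.1 i * x i + f.2 = c)).card = p ^ m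

/-- K3 fibres of a random affine functional on a pair (point, nonzero direction). For each `u` with
`u·d = e` exactly one `b`; and the `p` fibres of `u ↦ u·d` (`d ≠ 0`) are translates of each other. -/
def S_fib2 : Prop := ∀ (p m : ℕ) [Fact p.Prime] (x d : Fin m → ZMod p) (c e : ZMod p), d ≠ 0 →
  (univ.filter (fun f : (Fin m → ZMod p) × ZMod p =>
    ∑ i, f.1 i * x i + f.2 = c ∧ ∑ i, f.1 i * d i = e)).card * p = p ^ m

/-- K4 averaging. `Ω = Fin N → (F_p^m × F_p)` (N affine functionals). For `ω ∈ Ω` put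
`D ω = {x | nz (fun i => ∑ l, (ω i).1 l * x l + (ω i).2) ≤ Z}`.
`∑_ω |D ω| = ∑_x #{ω | ...} = p^m * (p^m)^N * V` because for fixed `x` and `c : Fin N → ZMod p` the
number of `ω` with `ℓ_{ω i}(x) = c i` for all `i` is `∏_i p^m` (K2). In the same way, for
`d ≠ 0`, the number of `ω` with `ℓ_{ω i}(x) = c i`, `u_{ω i}·d = e i` for all `i`, times `p^N`, is
`(p^m)^N` (K3), so `p^N ∑_ω bad k (D ω) ≤ p^(2m) (p^m)^N B`. With `|Ω| = (p^(m+1))^N` the average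
of `|D ω| - bad k (D ω)` is at least `p^m V / p^N - p^(2m) B / p^(2N)`; take an `ω` with at least
the average. -/
def S_avg : Prop := ∀ (p m N Z k : ℕ) [Fact p.Prime], ∃ D : Finset (Fin m → ZMod p),
  (p : ℝ) ^ m * (V p N Z : ℝ) / (p : ℝ) ^ N - (p : ℝ) ^ (2 * m) * (B p N Z k : ℝ) / (p : ℝ) ^ (2 * N)
    ≤ (D.card : ℝ) - (bad k D : ℝ)

/-- K5 one coordinate. For `(c,e) ∈ F_p^2` let `X(c,e) = #{j < k | c + j e = 0}`. The number of
`(c,e)` with `X = 0` is at most `p q` where `q = p + 1 - k` (`e = 0`: `c ≠ 0`, at most `p - 1`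
values, fine since `q ≥ 1`; `e ≠ 0`: the `k` values `-j e`, `j < k ≤ p`, are distinct, so
`p - k = q - 1` values of `c` remain; total `(p-1) + (p-1)(q-1) = (p-1) q ≤ p q`), and
`(1/8)^X ≤ 1/8` if `X ≥ 1`. -/
def S_one : Prop := ∀ (p k q : ℕ) [Fact p.Prime], k + q = p + 1 → 1 ≤ q →
  ∑ ce : ZMod p × ZMod p,
    (1 / 8 : ℝ) ^ ((Finset.range k).filter (fun j : ℕ => ce.1 + (j : ZMod p) * ce.2 = 0)).card
    ≤ (p : ℝ) * q + (p : ℝ) ^ 2 / 8

/-- K6 Chernoff, from K5. If `(c,e)` is counted by `B` then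
`∑_i X(c_i,e_i) = ∑_{j<k} nz (c + j e) ≤ k Z`, so `1 ≤ 8^(kZ) ∏_i (1/8)^X(c_i,e_i)`; sum over all
`(c,e)` and use `∑_{(c,e) ∈ (F_p^2)^N} ∏_i g(c_i,e_i) = (∑_{F_p^2} g)^N`. -/
def S_chern : Prop := ∀ (p N Z k q : ℕ) [Fact p.Prime], k + q = p + 1 → 1 ≤ q →
  (B p N Z k : ℝ) ≤ 8 ^ (k * Z) * ((p : ℝ) * q + (p : ℝ) ^ 2 / 8) ^ N

/-- K7 entropy bound. `N^N = (Z + (N-Z))^N = ∑_j C(N,j) Z^j (N-Z)^(N-j)` and the term `j = Z` is
the largest of the `N+1` terms: with `f j = C(N,j) Z^j (N-Z)^(N-j)` one has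
`f (j+1) * ((j+1) (N-Z)) = f j * ((N-j) Z)` and `(N-j) Z - (j+1)(N-Z) = N (Z-j-1) + Z`, which is
`≥ 0` for `j < Z` and `≤ 0` for `j ≥ Z`. -/
def S_ent : Prop := ∀ N Z : ℕ, Z ≤ N →
  N ^ N ≤ (N + 1) * (N.choose Z * Z ^ Z * (N - Z) ^ (N - Z))

/-- K8 the vectors with exactly `Z` zeros. -/
def S_V : Prop := ∀ (p N Z : ℕ) [Fact p.Prime], N.choose Z * (p - 1) ^ (N - Z) ≤ V p N Z

/-- K9 real form, from K7 and K8. With `N = p^2 M`, `Z = (p - 8q) M`, `T = N - Z`: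
`V / p^N ≥ C(N,Z) (p-1)^T / p^N ≥ (1/(N+1)) N^N (p-1)^T / (Z^Z T^T p^N)`
`= (1/(N+1)) exp (- Z log (p Z / N) - T log (p T / ((p-1) N)))` and `log x ≤ x - 1` gives
`Z log (p Z / N) + T log (p T / ((p-1) N)) ≤ Z (p Z / N - 1) + T (p T / ((p-1) N) - 1)
 = N (p Z / N - 1)^2 / (p - 1) = 64 q^2 M / (p-1)`. -/
def S_Vreal : Prop := ∀ (p q M : ℕ) [Fact p.Prime], 8 * q ≤ p → 1 ≤ M →
  Real.exp (-(64 * (q : ℝ) ^ 2 * M / ((p : ℝ) - 1))) / ((p : ℝ) ^ 2 * M + 1)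
    ≤ (V p (p ^ 2 * M) ((p - 8 * q) * M) : ℝ) / (p : ℝ) ^ (p ^ 2 * M)

/-- K10 real form of K6. With `N = p^2 M`, `Z = (p - 8q) M`, `k ≤ p`: `8^(kZ) ≤ 8^(p Z) =
8^(N - 8 q p M)`, and `(p q + p^2/8)^N = (p^2)^N (1/8)^N (1 + 8q/p)^N ≤ p^(2N) 8^(-N) exp (8 q p M)`. -/
def S_Breal : Prop := ∀ (p q k M : ℕ) [Fact p.Prime], 8 * q ≤ p → k + q = p + 1 → 1 ≤ q →
  (B p (p ^ 2 * M) ((p - 8 * q) * M) k : ℝ) / (p : ℝ) ^ (2 * (p ^ 2 * M))
    ≤ Real.exp (-(8 * (q : ℝ) * p * M * (Real.log 8 - 1)))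

/-- K11 numbers. There are `M` and `m` such that the main term is large. Here
`L = log p`, `m = ⌊7.5 q p M / L⌋`, `M` large; uses `p ≥ 11` (as `p ≥ 8` is prime), so
`1/(p-1) ≤ 1.1/p`, `64 q^2 M/(p-1) ≤ 70.4 q^2 M / p ≤ 0.8 q p M` (as `8 q ≤ p`, `p ≥ 11`), and
`log 2 > 0.6931`.
(a) `2 m L - 8 q p M (log 8 - 1) ≤ m L - 64 q^2 M/(p-1) - log (p^2 M + 1) - log 2`, because
 `m L ≤ 7.5 q p M` and `8 (3 * 0.6931 - 1) = 8.634`, so the slack is `0.33 q p M`.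
(b) `m (1 - 10 q/p^2) L ≤ m L - 64 q^2 M/(p-1) - log (p^2 M + 1) - log 2`, because
 `m ≥ 7.5 q p M / L - 1` gives `m 10 q L/p^2 ≥ 75 q^2 M / p - 10 q L/p^2`. -/
def S_num : Prop := ∀ (p q : ℕ) [Fact p.Prime], 8 * q ≤ p → 1 ≤ q → ∃ M m : ℕ, 1 ≤ M ∧ 1 ≤ m ∧
  2 * (m : ℝ) * Real.log p - 8 * q * p * M * (Real.log 8 - 1) ≤
    m * Real.log p - 64 * (q : ℝ) ^ 2 * M / ((p : ℝ) - 1) - Real.log ((p : ℝ) ^ 2 * M + 1)
      - Real.log 2 ∧
  (m : ℝ) * ((1 - 10 * q / (p : ℝ) ^ 2) * Real.log p) ≤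
    m * Real.log p - 64 * (q : ℝ) ^ 2 * M / ((p : ℝ) - 1) - Real.log ((p : ℝ) ^ 2 * M + 1)
      - Real.log 2

/-- K12 from a single good set to `lam`. `r k p m ≤ p^m` (the set in the `sSup` is bounded by
`p^m = card (Fin m → ZMod p)`), so the supremum is over a set bounded by `p`. -/
def S_lam : Prop := ∀ (p k m : ℕ) [Fact p.Prime] (x : ℝ) (A : Finset (Fin m → ZMod p)), 1 ≤ m →
  0 ≤ x → APFree k A → x ^ m ≤ (A.card : ℝ) → x ≤ lam k p

end Pool.Agent.H311.KAP
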