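import Mathlib

/-!
# Large sets without full lines in F^n, F a finite field

Statements (as Props) of the steps; see the doc comments for the proofs. The same steps over
`ZMod p` with `k`-term progressions are in `Pool.Agent.H311.KAP.Defs`.
-/

open Finset

namespace Pool.Agent.H311.KAPF

/-- `LineFree A`: the set `A` contains no full line `{x + t y : t ∈ F}` (`y ≠ 0`). -/
def LineFree {F : Type} [Field F] {n : ℕ} (A : Finset (Fin n → F)) : Prop :=
  ∀ x y : Fin n → F, (∀ t : F, x + t • y ∈ A) → y = 0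

/-- number of zero coordinates of `c` -/
def nz {F : Type} [Field F] [DecidableEq F] {N : ℕ} (c : Fin N → F) : ℕ :=
  (univ.filter (fun i => c i = 0)).card

/-- number of vectors of `F^N` with at most `Z` zero coordinates -/
noncomputable def V (F : Type) [Field F] [Fintype F] [DecidableEq F] (N Z : ℕ) : ℕ :=
  (univ.filter (fun c : Fin N → F => nz c ≤ Z)).card

/-- number of pairs `(c,e)` in `(F^N)^2` for which `c + t e` has at most `Z` zero coordinates
for every `t ∈ F` -/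
noncomputable def B (F : Type) [Field F] [Fintype F] [DecidableEq F] (N Z : ℕ) : ℕ :=
  (univ.filter (fun ce : (Fin N → F) × (Fin N → F) => ∀ t : F, nz (ce.1 + t • ce.2) ≤ Z)).card

/-- number of parametrised full lines in `D` -/
noncomputable def bad {F : Type} [Field F] [Fintype F] [DecidableEq F] {m : ℕ}
    (D : Finset (Fin m → F)) : ℕ :=
  (univ.filter (fun xd : (Fin m → F) × (Fin m → F) =>
    xd.2 ≠ 0 ∧ ∀ t : F, xd.1 + t • xd.2 ∈ D)).card

/-- K1 deletion. Remove from `D` the point `x` of each parametrised line `(x, y)`: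
`A = D \ image fst bad`. A full line in `A` lies in `D`, so its point `x = x + 0 y` was removed. -/
def S_del : Prop := ∀ (F : Type) [Field F] [Fintype F] [DecidableEq F] (m : ℕ)
  (D : Finset (Fin m → F)),
  ∃ A : Finset (Fin m → F), A ⊆ D ∧ LineFree A ∧ D.card ≤ A.card + bad D

/-- K2 fibres of one random affine functional at a point. For each `u` there is exactly one `b`. -/
def S_fib1 : Prop := ∀ (F : Type) [Field F] [Fintype F] [DecidableEq F] (m : ℕ)
  (x : Fin m → F) (c : F),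
  (univ.filter (fun f : (Fin m → F) × F => ∑ i, f.1 i * x i + f.2 = c)).card
    = (Fintype.card F) ^ m

/-- K3 fibres of a random affine functional on a pair (point, nonzero direction). -/
def S_fib2 : Prop := ∀ (F : Type) [Field F] [Fintype F] [DecidableEq F] (m : ℕ)
  (x d : Fin m → F) (c e : F), d ≠ 0 →
  (univ.filter (fun f : (Fin m → F) × F =>
    ∑ i, f.1 i * x i + f.2 = c ∧ ∑ i, f.1 i * d i = e)).card * Fintype.card F
      = (Fintype.card F) ^ m

/-- K4 averaging over `ω : Fin N → (F^m × F)` (N affine functionals), with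
`D ω = {x | nz (fun i => ∑ l, (ω i).1 l * x l + (ω i).2) ≤ Z}`. -/
def S_avg : Prop := ∀ (F : Type) [Field F] [Fintype F] [DecidableEq F] (m N Z : ℕ),
  ∃ D : Finset (Fin m → F),
  (Fintype.card F : ℝ) ^ m * (V F N Z : ℝ) / (Fintype.card F : ℝ) ^ N
    - (Fintype.card F : ℝ) ^ (2 * m) * (B F N Z : ℝ) / (Fintype.card F : ℝ) ^ (2 * N)
    ≤ (D.card : ℝ) - (bad D : ℝ)

/-- K5 one coordinate. For `(c,e) ∈ F^2` let `X(c,e) = #{t | c + t e = 0}`: it is `1` for `e ≠ 0`,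
`0` for `e = 0`, `c ≠ 0` (this is `q - 1` pairs) and `q` for `c = e = 0`. -/
def S_one : Prop := ∀ (F : Type) [Field F] [Fintype F] [DecidableEq F],
  ∑ ce : F × F, (1 / 8 : ℝ) ^ (univ.filter (fun t : F => ce.1 + t * ce.2 = 0)).card
    ≤ (Fintype.card F : ℝ) + (Fintype.card F : ℝ) ^ 2 / 8

/-- K6 Chernoff, from K5. If `(c,e)` is counted by `B` then
`∑_i X(c_i,e_i) = ∑_t nz (c + t e) ≤ q Z`, so `1 ≤ 8^(qZ) ∏_i (1/8)^X(c_i,e_i)`; sum over all
`(c,e)` and use `∑_{(c,e) ∈ (F^2)^N} ∏_i g(c_i,e_i) = (∑_{F^2} g)^N`. -/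
def S_chern : Prop := ∀ (F : Type) [Field F] [Fintype F] [DecidableEq F] (N Z : ℕ),
  (B F N Z : ℝ) ≤ 8 ^ (Fintype.card F * Z)
    * ((Fintype.card F : ℝ) + (Fintype.card F : ℝ) ^ 2 / 8) ^ N

/-- K8 the vectors with exactly `Z` zeros. -/
def S_V : Prop := ∀ (F : Type) [Field F] [Fintype F] [DecidableEq F] (N Z : ℕ),
  N.choose Z * (Fintype.card F - 1) ^ (N - Z) ≤ V F N Z

/-- K9 real form of the main term; `N = q^2 M`, `Z = (q - 8) M`; needs
`N^N ≤ (N+1) C(N,Z) Z^Z (N-Z)^(N-Z)` (see KAP.S_ent) and K8. -/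
def S_Vreal : Prop := ∀ (F : Type) [Field F] [Fintype F] [DecidableEq F] (M : ℕ),
  8 ≤ Fintype.card F → 1 ≤ M →
  Real.exp (-(64 * (M : ℝ) / ((Fintype.card F : ℝ) - 1))) / ((Fintype.card F : ℝ) ^ 2 * M + 1)
    ≤ (V F ((Fintype.card F) ^ 2 * M) ((Fintype.card F - 8) * M) : ℝ)
      / (Fintype.card F : ℝ) ^ ((Fintype.card F) ^ 2 * M)

/-- K10 real form of K6: `8^(q Z) = 8^(N - 8 q M)`, and `(q + q^2/8)^N = (q^2)^N (1/8)^N (1 + 8/q)^N
≤ q^(2N) 8^(-N) exp (8 q M)`. -/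
def S_Breal : Prop := ∀ (F : Type) [Field F] [Fintype F] [DecidableEq F] (M : ℕ),
  8 ≤ Fintype.card F →
  (B F ((Fintype.card F) ^ 2 * M) ((Fintype.card F - 8) * M) : ℝ)
      / (Fintype.card F : ℝ) ^ (2 * ((Fintype.card F) ^ 2 * M))
    ≤ Real.exp (-(8 * (Fintype.card F : ℝ) * M * (Real.log 8 - 1)))

/-- K11 numbers. For every large `m` there is an `M` such that the main term is large. Here
`L = log p`, `M = ⌈m L / (7.5 p)⌉`, so `m L ≤ 7.5 p M` and `M ≤ m L / (7.5 p) + 1`; `M → ∞` as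
`m → ∞`. `log 2 > 0.6931`, so `8 (log 8 - 1) ≥ 8.634`.
(a) `m L + 64 M/(p-1) + log (2 (p^2 M + 1)) ≤ 7.5 p M + 8 M + log (2 (p^2 M + 1)) ≤ 8.634 p M` as
 `8 ≤ 8 p / 9` and the slack is `(1.134 p - 8) M ≥ 2.2 M` for `p ≥ 9`.
(b) `64 M/(p-1) ≤ 64 m L/(7.5 p (p-1)) + 8 ≤ 9.6 m L/p^2 + 8` (`p/(p-1) ≤ 9/8`), so
 the slack is `0.4 m L/p^2 - 8 - log (2 (p^2 M + 1))`, which is `≥ 0` for `m` large. -/
def S_num : Prop := ∀ p : ℕ, 9 ≤ p → ∃ m₀ : ℕ, ∀ m : ℕ, m₀ ≤ m → ∃ M : ℕ, 1 ≤ M ∧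
  2 * (m : ℝ) * Real.log p - 8 * p * M * (Real.log 8 - 1) ≤
    m * Real.log p - 64 * M / ((p : ℝ) - 1) - Real.log ((p : ℝ) ^ 2 * M + 1) - Real.log 2 ∧
  (m : ℝ) * ((1 - 10 / (p : ℝ) ^ 2) * Real.log p) ≤
    m * Real.log p - 64 * M / ((p : ℝ) - 1) - Real.log ((p : ℝ) ^ 2 * M + 1) - Real.log 2

end Pool.Agent.H311.KAPF
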