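import Pool.Agent.H311.KAP.Defs
import Pool.Agent.H311.KAP.DefsF

/-!
# Better constants

The same steps as in `Defs` and `DefsF` with `1/8` replaced by `1/5` and `8 q` by `5 q`, and with a
sharper bound for the main term. `N = p^2 M`, `Z = (p - 5 q) M`.
-/

open Finset

namespace Pool.Agent.H311.KAP

/-- the function `G(x) = (1-x) log (1-x) + x` -/
noncomputable def G (x : ℝ) : ℝ := (1 - x) * Real.log (1 - x) + x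

/-- K5'. As `S_one`: if `n0` is the number of `(c,e)` with `X = 0` then
`∑ (1/5)^X ≤ n0 + (p^2 - n0)/5 = p^2/5 + 4 n0 / 5` and `n0 ≤ p q`. -/
def S_one5 : Prop := ∀ (p k q : ℕ) [Fact p.Prime], k + q = p + 1 → 1 ≤ q →
  ∑ ce : ZMod p × ZMod p,
    (1 / 5 : ℝ) ^ ((Finset.range k).filter (fun j : ℕ => ce.1 + (j : ZMod p) * ce.2 = 0)).card
    ≤ (p : ℝ) ^ 2 / 5 + 4 / 5 * ((p : ℝ) * q)

/-- K6'. As `S_chern`. -/
def S_chern5 : Prop := ∀ (p N Z k q : ℕ) [Fact p.Prime], k + q = p + 1 → 1 ≤ q →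
  (B p N Z k : ℝ) ≤ 5 ^ (k * Z) * ((p : ℝ) ^ 2 / 5 + 4 / 5 * ((p : ℝ) * q)) ^ N

/-- K10'. `5^(kZ) ≤ 5^(pZ) = 5^(N - 5 q p M)` and
`(p^2/5 + 4 p q/5)^N = p^(2N) 5^(-N) (1 + 4q/p)^N ≤ p^(2N) 5^(-N) exp (4 q p M)`. -/
def S_Breal5 : Prop := ∀ (p q k M : ℕ) [Fact p.Prime], 5 * q ≤ p → k + q = p + 1 → 1 ≤ q →
  (B p (p ^ 2 * M) ((p - 5 * q) * M) k : ℝ) / (p : ℝ) ^ (2 * (p ^ 2 * M))
    ≤ Real.exp (-((q : ℝ) * p * M * (5 * Real.log 5 - 4)))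

/-- K9'. With `η = 5q/p`, `N = p^2 M`, `Z = (p - 5q) M = (1-η) N/p`, `T = N - Z`:
`V / p^N ≥ (1/(N+1)) exp (- Z log (p Z / N) - T log (p T / ((p-1) N)))`, where
`Z log (pZ/N) = p M (1-η) log (1-η)` and, as `p T/((p-1) N) = 1 + η/(p-1)`,
`T log (p T / ((p-1) N)) ≤ T η/(p-1) = p M (η + η^2/(p-1))`. -/
def S_Vreal5 : Prop := ∀ (p q M : ℕ) [Fact p.Prime], 5 * q < p → 1 ≤ M →
  Real.exp (-((p : ℝ) * M * (G (5 * q / p) + (5 * q / (p : ℝ)) ^ 2 / ((p : ℝ) - 1))))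
      / ((p : ℝ) ^ 2 * M + 1)
    ≤ (V p (p ^ 2 * M) ((p - 5 * q) * M) : ℝ) / (p : ℝ) ^ (p ^ 2 * M)

/-- K11'. Numbers, for all large `m`. Here `L = log p`, `η = 5q/p ≤ 5/13`,
`E = G η + η^2/(p-1)`. Since `log (1-η) ≤ -(η + η^2/2 + η^3/3 + η^4/4)`,
`G η ≤ η^2/2 + η^3/6 + η^4/12 + η^5/4 ≤ 0.5908 η^2`, so `E ≤ 0.6742 η^2 = 16.855 q^2/p^2`
(as `1/(p-1) ≤ 1/12`), in particular `E ≤ 0.0998 q` (`q/p ≤ 1/13`, `1/p ≤ 1/13`).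
`5^28 ≥ 2^65` gives `log 5 ≥ (65/28) log 2`, `5 log 5 - 4 ≥ 4.045`.
Take `M = ⌈m L / (3.94 q p)⌉`: `m L ≤ 3.94 q p M` and `M ≤ m L/(3.94 q p) + 1`.
(a) `m L + p M E + log (2 (p^2 M + 1)) ≤ (3.94 + 0.0998) q p M + log (2(p^2 M + 1))
 ≤ 4.045 q p M` for `M` large.
(b) `p M E ≤ 16.855 q^2 M/p ≤ 16.855 q m L/(3.94 p^2) + 16.855 q^2/p
 ≤ 4.28 q m L/p^2 + 16.855 q^2/p`, so the slack is
 `0.22 q m L/p^2 - 16.855 q^2/p - log (2 (p^2 M+1))`, which is `≥ 0` for `m` large. -/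
def S_num5 : Prop := ∀ p q : ℕ, 1 ≤ q → 13 * q ≤ p → ∃ m₀ : ℕ, ∀ m : ℕ, m₀ ≤ m → ∃ M : ℕ, 1 ≤ M ∧
  2 * (m : ℝ) * Real.log p - q * p * M * (5 * Real.log 5 - 4) ≤
    m * Real.log p - p * M * (G (5 * q / p) + (5 * q / (p : ℝ)) ^ 2 / ((p : ℝ) - 1))
      - Real.log ((p : ℝ) ^ 2 * M + 1) - Real.log 2 ∧
  (m : ℝ) * ((1 - 9 / 2 * q / (p : ℝ) ^ 2) * Real.log p) ≤
    m * Real.log p - p * M * (G (5 * q / p) + (5 * q / (p : ℝ)) ^ 2 / ((p : ℝ) - 1))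
      - Real.log ((p : ℝ) ^ 2 * M + 1) - Real.log 2

end Pool.Agent.H311.KAP

namespace Pool.Agent.H311.KAPF

open Pool.Agent.H311.KAP (G)

/-- K5' over `F` -/
def S_one5 : Prop := ∀ (F : Type) [Field F] [Fintype F] [DecidableEq F],
  ∑ ce : F × F, (1 / 5 : ℝ) ^ (univ.filter (fun t : F => ce.1 + t * ce.2 = 0)).card
    ≤ (Fintype.card F : ℝ) ^ 2 / 5 + 4 / 5 * (Fintype.card F : ℝ)

/-- K6' over `F` -/
def S_chern5 : Prop := ∀ (F : Type) [Field F] [Fintype F] [DecidableEq F] (N Z : ℕ),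
  (B F N Z : ℝ) ≤ 5 ^ (Fintype.card F * Z)
    * ((Fintype.card F : ℝ) ^ 2 / 5 + 4 / 5 * (Fintype.card F : ℝ)) ^ N

/-- K10' over `F` -/
def S_Breal5 : Prop := ∀ (F : Type) [Field F] [Fintype F] [DecidableEq F] (M : ℕ),
  5 ≤ Fintype.card F →
  (B F ((Fintype.card F) ^ 2 * M) ((Fintype.card F - 5) * M) : ℝ)
      / (Fintype.card F : ℝ) ^ (2 * ((Fintype.card F) ^ 2 * M))
    ≤ Real.exp (-((Fintype.card F : ℝ) * M * (5 * Real.log 5 - 4)))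

/-- K9' over `F` -/
def S_Vreal5 : Prop := ∀ (F : Type) [Field F] [Fintype F] [DecidableEq F] (M : ℕ),
  5 < Fintype.card F → 1 ≤ M →
  Real.exp (-((Fintype.card F : ℝ) * M * (G (5 / (Fintype.card F : ℝ))
      + (5 / (Fintype.card F : ℝ)) ^ 2 / ((Fintype.card F : ℝ) - 1))))
      / ((Fintype.card F : ℝ) ^ 2 * M + 1)
    ≤ (V F ((Fintype.card F) ^ 2 * M) ((Fintype.card F - 5) * M) : ℝ)
      / (Fintype.card F : ℝ) ^ ((Fintype.card F) ^ 2 * M)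

end Pool.Agent.H311.KAPF
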