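import Pool.Agent.H311.KAP.Defs5

open Finset

namespace Pool.Agent.H311.KAP

theorem main5_of (hdel : S_del) (havg : S_avg) (hV : S_Vreal5) (hB : S_Breal5) (hnum : S_num5)
    (hlam : S_lam) (p q : ℕ) [Fact p.Prime] (hq : 1 ≤ q) (h13 : 13 * q ≤ p) :
    (p : ℝ) ^ (1 - 9 / 2 * q / (p : ℝ) ^ 2) ≤ lam (p + 1 - q) p := by
  obtain ⟨m₀, hm₀⟩ := hnum p q hq h13
  obtain ⟨M, hM, ha, hb⟩ := hm₀ (m₀ + 1) (Nat.le_succ _)
  set m : ℕ := m₀ + 1 with hm'
  have hm : 1 ≤ m := by omega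
  have hk : (p + 1 - q) + q = p + 1 := by omega
  have hk1 : 1 ≤ p + 1 - q := by omega
  obtain ⟨D, hD⟩ := havg p m (p ^ 2 * M) ((p - 5 * q) * M) (p + 1 - q)
  obtain ⟨A, -, hA, hcard⟩ := hdel p m (p + 1 - q) hk1 D
  have hp : (0 : ℝ) < p := by exact_mod_cast (Fact.out : p.Prime).pos
  have h1 := hV p q M (by omega) hM
  have h2 := hB p q (p + 1 - q) M (by omega) hk hq
  refine hlam p (p + 1 - q) m _ A hm (Real.rpow_nonneg hp.le _) hA ?_
  set E : ℝ := G (5 * q / p) + (5 * q / (p : ℝ)) ^ 2 / ((p : ℝ) - 1) with hE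
  set T : ℝ := m * Real.log p - p * M * E - Real.log ((p : ℝ) ^ 2 * M + 1) with hT
  have hpm : ∀ n : ℕ, (p : ℝ) ^ n = Real.exp (n * Real.log p) := by
    intro n
    rw [mul_comm, Real.exp_mul, Real.exp_log hp, Real.rpow_natCast]
  have hN1 : (0 : ℝ) < (p : ℝ) ^ 2 * M + 1 := by positivity
  -- main term
  have hmain : Real.exp T ≤ (p : ℝ) ^ m * (V p (p ^ 2 * M) ((p - 5 * q) * M) : ℝ)
      / (p : ℝ) ^ (p ^ 2 * M) := by
    have e1 : Real.exp T = (p : ℝ) ^ m *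
        (Real.exp (-((p : ℝ) * M * E)) / ((p : ℝ) ^ 2 * M + 1)) := by
      rw [hT, Real.exp_sub, Real.exp_sub, Real.exp_log hN1, hpm m, Real.exp_neg]
      field_simp
    rw [e1]
    refine le_trans (mul_le_mul_of_nonneg_left h1 (pow_nonneg hp.le m)) (le_of_eq ?_)
    ring
  -- error term
  have herr : (p : ℝ) ^ (2 * m) * (B p (p ^ 2 * M) ((p - 5 * q) * M) (p + 1 - q) : ℝ)
      / (p : ℝ) ^ (2 * (p ^ 2 * M)) ≤ Real.exp (T - Real.log 2) := by
    rw [mul_div_assoc]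
    calc (p : ℝ) ^ (2 * m) * ((B p (p ^ 2 * M) ((p - 5 * q) * M) (p + 1 - q) : ℝ)
        / (p : ℝ) ^ (2 * (p ^ 2 * M)))
        ≤ (p : ℝ) ^ (2 * m) * Real.exp (-((q : ℝ) * p * M * (5 * Real.log 5 - 4))) :=
          mul_le_mul_of_nonneg_left h2 (by positivity)
      _ = Real.exp (2 * (m : ℝ) * Real.log p - q * p * M * (5 * Real.log 5 - 4)) := by
          rw [hpm (2 * m), ← Real.exp_add]; push_cast; ring_nf
      _ ≤ Real.exp (T - Real.log 2) := Real.exp_le_exp.mpr (by rw [hT]; linarith)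
  have hhalf : Real.exp (T - Real.log 2) = Real.exp T / 2 := by
    rw [Real.exp_sub, Real.exp_log (by norm_num)]
  have hcard' : (D.card : ℝ) - (bad (p + 1 - q) D : ℝ) ≤ A.card := by
    have : (D.card : ℝ) ≤ (A.card : ℝ) + (bad (p + 1 - q) D : ℝ) := by exact_mod_cast hcard
    linarith
  have hfin : ((p : ℝ) ^ (1 - 9 / 2 * q / (p : ℝ) ^ 2)) ^ m ≤ Real.exp (T - Real.log 2) := by
    rw [← Real.rpow_natCast, ← Real.rpow_mul hp.le, Real.rpow_def_of_pos hp]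
    refine Real.exp_le_exp.mpr ?_
    have : Real.log p * ((1 - 9 / 2 * q / (p : ℝ) ^ 2) * (m : ℕ)) =
        (m : ℝ) * ((1 - 9 / 2 * q / (p : ℝ) ^ 2) * Real.log p) := by ring
    rw [this, hT]; linarith
  linarith

end Pool.Agent.H311.KAP

namespace Pool.Agent.H311.KAPF

open Pool.Agent.H311.KAP (G)

theorem main5_of (hdel : S_del) (havg : S_avg) (hV : S_Vreal5) (hB : S_Breal5)
    (hnum : KAP.S_num5)
    (F : Type) [Field F] [Fintype F] [DecidableEq F] (h13 : 13 ≤ Fintype.card F) :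
    ∃ n₀ : ℕ, ∀ n : ℕ, n₀ ≤ n → ∃ A : Finset (Fin n → F), LineFree A ∧
      ((Fintype.card F : ℝ) ^ (1 - 9 / 2 / (Fintype.card F : ℝ) ^ 2)) ^ n ≤ (A.card : ℝ) := by
  set p : ℕ := Fintype.card F with hpdef
  obtain ⟨m₀, hm₀⟩ := hnum p 1 le_rfl (by omega)
  refine ⟨m₀, fun m hm => ?_⟩
  obtain ⟨M, hM, ha, hb⟩ := hm₀ m hm
  obtain ⟨D, hD⟩ := havg F m (p ^ 2 * M) ((p - 5) * M)
  obtain ⟨A, -, hA, hcard⟩ := hdel F m D
  refine ⟨A, hA, ?_⟩
  have hp : (0 : ℝ) < p := by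
    have : 0 < p := by omega
    exact_mod_cast this
  have h1 := hV F M (by omega) hM
  have h2 := hB F M (by omega)
  rw [← hpdef] at h1 h2 hD
  simp only [Nat.cast_one, mul_one, one_mul] at ha hb
  set E : ℝ := G (5 / p) + (5 / (p : ℝ)) ^ 2 / ((p : ℝ) - 1) with hE
  set T : ℝ := m * Real.log p - p * M * E - Real.log ((p : ℝ) ^ 2 * M + 1) with hT
  have hpm : ∀ n : ℕ, (p : ℝ) ^ n = Real.exp (n * Real.log p) := by
    intro n
    rw [mul_comm, Real.exp_mul, Real.exp_log hp, Real.rpow_natCast]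
  have hN1 : (0 : ℝ) < (p : ℝ) ^ 2 * M + 1 := by positivity
  -- main term
  have hmain : Real.exp T ≤ (p : ℝ) ^ m * (V F (p ^ 2 * M) ((p - 5) * M) : ℝ)
      / (p : ℝ) ^ (p ^ 2 * M) := by
    have e1 : Real.exp T = (p : ℝ) ^ m *
        (Real.exp (-((p : ℝ) * M * E)) / ((p : ℝ) ^ 2 * M + 1)) := by
      rw [hT, Real.exp_sub, Real.exp_sub, Real.exp_log hN1, hpm m, Real.exp_neg]
      field_simp
    rw [e1]
    refine le_trans (mul_le_mul_of_nonneg_left h1 (pow_nonneg hp.le m)) (le_of_eq ?_)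
    ring
  -- error term
  have herr : (p : ℝ) ^ (2 * m) * (B F (p ^ 2 * M) ((p - 5) * M) : ℝ)
      / (p : ℝ) ^ (2 * (p ^ 2 * M)) ≤ Real.exp (T - Real.log 2) := by
    rw [mul_div_assoc]
    calc (p : ℝ) ^ (2 * m) * ((B F (p ^ 2 * M) ((p - 5) * M) : ℝ)
        / (p : ℝ) ^ (2 * (p ^ 2 * M)))
        ≤ (p : ℝ) ^ (2 * m) * Real.exp (-((p : ℝ) * M * (5 * Real.log 5 - 4))) :=
          mul_le_mul_of_nonneg_left h2 (by positivity)
      _ = Real.exp (2 * (m : ℝ) * Real.log p - p * M * (5 * Real.log 5 - 4)) := by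
          rw [hpm (2 * m), ← Real.exp_add]; push_cast; ring_nf
      _ ≤ Real.exp (T - Real.log 2) := Real.exp_le_exp.mpr (by rw [hT]; linarith)
  have hhalf : Real.exp (T - Real.log 2) = Real.exp T / 2 := by
    rw [Real.exp_sub, Real.exp_log (by norm_num)]
  have hcard' : (D.card : ℝ) - (bad D : ℝ) ≤ A.card := by
    have : (D.card : ℝ) ≤ (A.card : ℝ) + (bad D : ℝ) := by exact_mod_cast hcard
    linarith
  have hfin : ((p : ℝ) ^ (1 - 9 / 2 / (p : ℝ) ^ 2)) ^ m ≤ Real.exp (T - Real.log 2) := by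
    rw [← Real.rpow_natCast, ← Real.rpow_mul hp.le, Real.rpow_def_of_pos hp]
    refine Real.exp_le_exp.mpr ?_
    have : Real.log p * ((1 - 9 / 2 / (p : ℝ) ^ 2) * (m : ℕ)) =
        (m : ℝ) * ((1 - 9 / 2 / (p : ℝ) ^ 2) * Real.log p) := by ring
    rw [this, hT]; linarith
  linarith

end Pool.Agent.H311.KAPF
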